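import Mathlib

/-!
Return maps of polycycles with hyperbolic corners: a criterion with weights for at most two fixed points.
-/

set_option autoImplicit false

namespace Pool.Agent.H43.PC

open Set

/-- On `(0,d)` the function `g` is positive, increasing, twice differentiable, and behaves like a power with exponent
`l` up to `η`: `|x g'/g - l| ≤ η` and `|x g''/g' - (l - 1)| ≤ η`. -/
def HasExponent (d l η : ℝ) (g : ℝ → ℝ) : Prop :=
  ∀ x ∈ Ioo 0 d, 0 < g x ∧ 0 < deriv g x ∧ DifferentiableAt ℝ g x ∧ DifferentiableAt ℝ (deriv g) x ∧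
    |x * deriv g x / g x - l| ≤ η ∧ |x * deriv (deriv g) x / deriv g x - (l - 1)| ≤ η

/-- The point reached from `x` after the corners `0, ..., k-1`; corner `k` is the map `t ↦ e k + g k t`. -/
def orb (e : ℕ → ℝ) (g : ℕ → ℝ → ℝ) : ℕ → ℝ → ℝ
  | 0, x => x
  | k + 1, x => e k + g k (orb e g k x)

/-- `x` is a fixed point of the return map of the polycycle with `n` corners: the `n` corners are passed at points of
`(0,d)`, and the orbit closes. -/
def IsCycle (d : ℝ) (e : ℕ → ℝ) (g : ℕ → ℝ → ℝ) (n : ℕ) (x : ℝ) : Prop :=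
  (∀ k < n, orb e g k x ∈ Ioo 0 d) ∧ orb e g n x = x

/-- the strict inequalities for two consecutive weights `t, t'` -/
def Expanding (η l e t t' : ℝ) : Prop :=
  (0 ≤ e ∧ t + 2 * η < l * min 1 t') ∨ (e ≤ 0 ∧ 1 ≤ t' ∧ t < (l - η) * t')

def Contracting (η l e t t' : ℝ) : Prop :=
  (0 ≤ e ∧ (l + η) * max 1 t' < t) ∨ (e ≤ 0 ∧ t' ≤ 1 ∧ l * t' + 2 * η < t)

/-- log derivative in the charts -/
noncomputable def E (e t t' : ℝ) (g : ℝ → ℝ) (x : ℝ) : ℝ :=
  (t' - 1) * Real.log (e + g x) + Real.log (deriv g x) + (1 - t) * Real.log x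

theorem hasDerivAt_E {d l η e t t' : ℝ} {g : ℝ → ℝ} (hg : HasExponent d l η g) {x : ℝ} (hx : x ∈ Ioo 0 d)
    (hF : 0 < e + g x) :
    HasDerivAt (E e t t' g)
      (((t' - 1) * (x * deriv g x / (e + g x)) + x * deriv (deriv g) x / deriv g x + 1 - t) / x) x := by
  obtain ⟨h0, h1, h2, h3, h4, h5⟩ := hg x hx
  have hx0 : x ≠ 0 := hx.1.ne'
  have a1 : HasDerivAt (fun y => e + g y) (deriv g x) x := by
    simpa using (h2.hasDerivAt).const_add e
  have a2 := (a1.log hF.ne').const_mul (t' - 1)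
  have a3 := (h3.hasDerivAt).log h1.ne'
  have a4 := (Real.hasDerivAt_log hx0).const_mul (1 - t)
  have a5 := (a2.add a3).add a4
  refine a5.congr_deriv ?_
  have hF' := hF.ne'
  have h1' := h1.ne'
  field_simp
  ring

theorem deriv_pos_of_expanding {d l η e t t' : ℝ} (hη : 0 ≤ η) (ht' : 0 < t') {g : ℝ → ℝ}
    (hg : HasExponent d l η g) (h : Expanding η l e t t') {x : ℝ} (hx : x ∈ Ioo 0 d) (hF : 0 < e + g x) :
    0 < ((t' - 1) * (x * deriv g x / (e + g x)) + x * deriv (deriv g) x / deriv g x + 1 - t) / x := by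
  obtain ⟨h0, h1, h2, h3, h4, h5⟩ := hg x hx
  apply div_pos _ hx.1
  have hx0 := hx.1
  set A := x * deriv g x / g x with hA
  set B := x * deriv (deriv g) x / deriv g x with hB
  set W := x * deriv g x / (e + g x) with hW
  have hWpos : 0 < W := by rw [hW]; positivity
  rw [abs_le] at h4 h5
  rcases h with ⟨he, h⟩ | ⟨he, h6, h⟩
  · have hWA : W ≤ A := by
      rw [hW, hA]
      apply div_le_div_of_nonneg_left _ h0 (by linarith)
      positivity
    rcases le_total 1 t' with h7 | h7
    · rw [min_eq_left h7] at h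
      have : 0 ≤ (t' - 1) * W := mul_nonneg (by linarith) hWpos.le
      linarith
    · rw [min_eq_right h7] at h
      have h8 : (1 - t') * W ≤ (1 - t') * (l + η) := mul_le_mul_of_nonneg_left (by linarith) (by linarith)
      nlinarith
  · have hAW : A ≤ W := by
      rw [hW, hA]
      apply div_le_div_of_nonneg_left _ hF (by linarith)
      positivity
    have h8 : (t' - 1) * (l - η) ≤ (t' - 1) * W := mul_le_mul_of_nonneg_left (by linarith) (by linarith)
    nlinarith

theorem deriv_neg_of_contracting {d l η e t t' : ℝ} (hη : 0 ≤ η) (ht' : 0 < t') {g : ℝ → ℝ}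
    (hg : HasExponent d l η g) (h : Contracting η l e t t') {x : ℝ} (hx : x ∈ Ioo 0 d) (hF : 0 < e + g x) :
    ((t' - 1) * (x * deriv g x / (e + g x)) + x * deriv (deriv g) x / deriv g x + 1 - t) / x < 0 := by
  obtain ⟨h0, h1, h2, h3, h4, h5⟩ := hg x hx
  apply div_neg_of_neg_of_pos _ hx.1
  have hx0 := hx.1
  set A := x * deriv g x / g x with hA
  set B := x * deriv (deriv g) x / deriv g x with hB
  set W := x * deriv g x / (e + g x) with hW
  have hWpos : 0 < W := by rw [hW]; positivity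
  rw [abs_le] at h4 h5
  rcases h with ⟨he, h⟩ | ⟨he, h6, h⟩
  · have hWA : W ≤ A := by
      rw [hW, hA]
      apply div_le_div_of_nonneg_left _ h0 (by linarith)
      positivity
    rcases le_total 1 t' with h7 | h7
    · rw [max_eq_right h7] at h
      have h8 : (t' - 1) * W ≤ (t' - 1) * (l + η) := mul_le_mul_of_nonneg_left (by linarith) (by linarith)
      nlinarith
    · rw [max_eq_left h7] at h
      have : 0 ≤ (1 - t') * W := mul_nonneg (by linarith) hWpos.le
      nlinarith
  · have hAW : A ≤ W := by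
      rw [hW, hA]
      apply div_le_div_of_nonneg_left _ hF (by linarith)
      positivity
    have h8 : (1 - t') * (l - η) ≤ (1 - t') * W := mul_le_mul_of_nonneg_left (by linarith) (by linarith)
    nlinarith

section orbit

variable {d η : ℝ} {l e : ℕ → ℝ} {g : ℕ → ℝ → ℝ} {n : ℕ}

theorem g_lt (hg : ∀ k < n, HasExponent d (l k) η (g k)) {k : ℕ} (hk : k < n) {x y : ℝ} (hx : x ∈ Ioo 0 d)
    (hy : y ∈ Ioo 0 d) (h : x < y) : g k x < g k y := by
  have hs : StrictMonoOn (g k) (Icc x y) := by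
    apply strictMonoOn_of_deriv_pos (convex_Icc x y)
    · intro z hz
      exact (hg k hk z ⟨hx.1.trans_le hz.1, hz.2.trans_lt hy.2⟩).2.2.1.continuousAt.continuousWithinAt
    · intro z hz
      rw [interior_Icc] at hz
      exact (hg k hk z ⟨hx.1.trans hz.1, hz.2.trans hy.2⟩).2.1
  exact hs (left_mem_Icc.2 h.le) (right_mem_Icc.2 h.le) h

/-- Between two orbits that pass all corners the orbits pass all corners, and their order is kept. -/
theorem orb_between (hg : ∀ k < n, HasExponent d (l k) η (g k)) {x z : ℝ}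
    (hx : ∀ k < n, orb e g k x ∈ Ioo 0 d) (hz : ∀ k < n, orb e g k z ∈ Ioo 0 d) :
    ∀ k ≤ n, ∀ s t : ℝ, x ≤ s → s < t → t ≤ z →
      orb e g k x ≤ orb e g k s ∧ orb e g k s < orb e g k t ∧ orb e g k t ≤ orb e g k z := by
  intro k
  induction k with
  | zero => intro _ s t h1 h2 h3; exact ⟨h1, h2, h3⟩
  | succ k ih =>
    intro hk s t h1 h2 h3
    obtain ⟨a1, a2, a3⟩ := ih (by omega) s t h1 h2 h3
    have hxk := hx k (by omega)
    have hzk := hz k (by omega)
    have hs : orb e g k s ∈ Ioo 0 d := ⟨hxk.1.trans_le a1, (a2.trans_le a3).trans hzk.2⟩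
    have ht : orb e g k t ∈ Ioo 0 d := ⟨hs.1.trans a2, a3.trans_lt hzk.2⟩
    have b : ∀ {u v : ℝ}, u ∈ Ioo 0 d → v ∈ Ioo 0 d → u ≤ v → e k + g k u ≤ e k + g k v := by
      intro u v hu hv huv
      rcases huv.lt_or_eq with h | h
      · have := g_lt hg (by omega : k < n) hu hv h
        linarith
      · rw [h]
    refine ⟨b hxk hs a1, ?_, b ht hzk a3⟩
    have := g_lt hg (by omega : k < n) hs ht a2
    change e k + g k (orb e g k s) < e k + g k (orb e g k t)
    linarith

theorem hasDerivAt_orb (hg : ∀ k < n, HasExponent d (l k) η (g k)) {t : ℝ}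
    (ht : ∀ k < n, orb e g k t ∈ Ioo 0 d) :
    ∀ k ≤ n, HasDerivAt (orb e g k) (∏ j ∈ Finset.range k, deriv (g j) (orb e g j t)) t := by
  intro k
  induction k with
  | zero =>
    intro _
    have h0 : orb e g 0 = id := by funext x; rfl
    rw [h0, Finset.prod_range_zero]
    exact hasDerivAt_id t
  | succ k ih =>
    intro hk
    have h1 := ih (by omega)
    have h2 := (hg k (by omega) _ (ht k (by omega))).2.2.1.hasDerivAt
    have h3 : HasDerivAt (fun s => g k (orb e g k s)) (deriv (g k) (orb e g k t) *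
        ∏ j ∈ Finset.range k, deriv (g j) (orb e g j t)) t := HasDerivAt.comp t h2 h1
    rw [Finset.prod_range_succ, mul_comm]
    simpa [orb] using h3.const_add (e k)

/-- telescoping -/
theorem sum_E (θ : ℕ → ℝ) (t : ℝ) (n : ℕ) :
    ∑ k ∈ Finset.range n, E (e k) (θ k) (θ (k + 1)) (g k) (orb e g k t) =
      (θ n - 1) * Real.log (orb e g n t) - (θ 0 - 1) * Real.log t +
        ∑ k ∈ Finset.range n, Real.log (deriv (g k) (orb e g k t)) := by
  induction n with
  | zero => simp [orb]
  | succ n ih =>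
    rw [Finset.sum_range_succ, ih, Finset.sum_range_succ]
    unfold E
    change _ + ((θ (n + 1) - 1) * Real.log (orb e g (n + 1) t) + _ + _) = _
    ring

/-- **Core.** Two fixed points `x < y` and a point `w > y` which passes all corners: in the expanding case `w` is
mapped above `w`, in the contracting case below `w`. -/
theorem core (hη : 0 ≤ η) (hn : 1 ≤ n) (θ : ℕ → ℝ) (hθ : ∀ k, 0 < θ k) (hper : θ n = θ 0)
    (hg : ∀ k < n, HasExponent d (l k) η (g k)) {x y w : ℝ} (hx : IsCycle d e g n x) (hy : IsCycle d e g n y)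
    (hw : ∀ k < n, orb e g k w ∈ Ioo 0 d) (hxy : x < y) (hyw : y < w)
    (h : (∀ k < n, Expanding η (l k) (e k) (θ k) (θ (k + 1))) ∧ orb e g n w ≤ w ∨
      (∀ k < n, Contracting η (l k) (e k) (θ k) (θ (k + 1))) ∧ w ≤ orb e g n w) : False := by
  have hbt := orb_between (e := e) hg hx.1 hw
  have hx0 : 0 < x := (hx.1 0 (by omega)).1
  -- every point of `[x, w]` passes all corners
  have hpass : ∀ t ∈ Icc x w, (∀ k < n, orb e g k t ∈ Ioo 0 d) ∧ ∀ k ≤ n, 0 < orb e g k t := by
    intro t ht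
    have key : ∀ k ≤ n, orb e g k x ≤ orb e g k t ∧ orb e g k t ≤ orb e g k w := by
      intro k hk
      rcases ht.2.lt_or_eq with h1 | h1
      · have := hbt k hk t w ht.1 h1 le_rfl
        exact ⟨this.1, this.2.1.le⟩
      · subst h1
        have := hbt k hk x t le_rfl (hxy.trans hyw) le_rfl
        exact ⟨this.2.1.le, le_rfl⟩
    have hposx : ∀ k ≤ n, 0 < orb e g k x := by
      intro k hk
      rcases hk.lt_or_eq with h1 | h1
      · exact (hx.1 k h1).1
      · rw [h1, hx.2]; exact hx0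
    exact ⟨fun k hk => ⟨(hposx k hk.le).trans_le (key k hk.le).1, (key k hk.le).2.trans_lt (hw k hk).2⟩,
      fun k hk => (hposx k hk).trans_le (key k hk).1⟩
  set H : ℝ → ℝ := fun t => orb e g n t ^ θ 0 - t ^ θ 0 with hH
  set P : ℝ → ℝ := fun t => ∏ j ∈ Finset.range n, deriv (g j) (orb e g j t) with hP
  set S : ℝ → ℝ := fun c => ∑ k ∈ Finset.range n, E (e k) (θ k) (θ (k + 1)) (g k) (orb e g k c) with hS
  have hder : ∀ t ∈ Icc x w, HasDerivAt H (P t * θ 0 * orb e g n t ^ (θ 0 - 1) - 1 * θ 0 * t ^ (θ 0 - 1)) t := by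
    intro t ht
    have h1 := hasDerivAt_orb hg (hpass t ht).1 n le_rfl
    have h2 := h1.rpow_const (p := θ 0) (Or.inl ((hpass t ht).2 n le_rfl).ne')
    have h3 := (hasDerivAt_id t).rpow_const (p := θ 0) (Or.inl ((hx0.trans_le ht.1).ne' : id t ≠ 0))
    exact h2.sub h3
  -- the sign of the slope
  have hslope : ∀ u v : ℝ, x ≤ u → u < v → v ≤ w → ∃ c ∈ Ioo u v,
      (H v ≤ H u → S c ≤ 0) ∧ (H u ≤ H v → 0 ≤ S c) := by
    intro u v hu huv hv
    have hcont : ContinuousOn H (Icc u v) := fun t ht =>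
      (hder t ⟨hu.trans ht.1, ht.2.trans hv⟩).continuousAt.continuousWithinAt
    obtain ⟨c, hc, hc0⟩ := exists_hasDerivAt_eq_slope H _ huv hcont
      (fun t ht => hder t ⟨hu.trans ht.1.le, ht.2.le.trans hv⟩)
    have hcI : c ∈ Icc x w := ⟨hu.trans hc.1.le, hc.2.le.trans hv⟩
    have hcpos : 0 < c := hx0.trans_le hcI.1
    have hnpos := (hpass c hcI).2 n le_rfl
    have hPpos : ∀ j ∈ Finset.range n, 0 < deriv (g j) (orb e g j c) := fun j hj =>
      (hg j (Finset.mem_range.1 hj) _ ((hpass c hcI).1 j (Finset.mem_range.1 hj))).2.1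
    have hPp : 0 < P c := Finset.prod_pos hPpos
    have e3 : Real.log (P c) = ∑ k ∈ Finset.range n, Real.log (deriv (g k) (orb e g k c)) := by
      rw [hP]
      exact Real.log_prod (fun j hj => (hPpos j hj).ne')
    have hSc : S c = Real.log (P c * orb e g n c ^ (θ 0 - 1)) - Real.log (c ^ (θ 0 - 1)) := by
      rw [Real.log_mul hPp.ne' (Real.rpow_pos_of_pos hnpos _).ne', Real.log_rpow hnpos, Real.log_rpow hcpos, e3]
      change ∑ k ∈ Finset.range n, E (e k) (θ k) (θ (k + 1)) (g k) (orb e g k c) = _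
      rw [sum_E, hper]
      ring
    have hθ0 := hθ 0
    have hq : (H v - H u) / (v - u) = θ 0 * (P c * orb e g n c ^ (θ 0 - 1) - c ^ (θ 0 - 1)) := by
      rw [← hc0]; ring
    have hvu : 0 < v - u := by linarith
    have hA : 0 < P c * orb e g n c ^ (θ 0 - 1) := mul_pos hPp (Real.rpow_pos_of_pos hnpos _)
    have hB : 0 < c ^ (θ 0 - 1) := Real.rpow_pos_of_pos hcpos _
    refine ⟨c, hc, fun hle => ?_, fun hle => ?_⟩
    · have h1 : (H v - H u) / (v - u) ≤ 0 := div_nonpos_of_nonpos_of_nonneg (by linarith) hvu.le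
      rw [hq] at h1
      have h2 : P c * orb e g n c ^ (θ 0 - 1) ≤ c ^ (θ 0 - 1) := by
        by_contra hcon
        push Not at hcon
        have := mul_pos hθ0 (sub_pos.2 hcon)
        linarith
      rw [hSc, sub_nonpos]
      exact Real.log_le_log hA h2
    · have h1 : 0 ≤ (H v - H u) / (v - u) := div_nonneg (by linarith) hvu.le
      rw [hq] at h1
      have h2 : c ^ (θ 0 - 1) ≤ P c * orb e g n c ^ (θ 0 - 1) := by
        by_contra hcon
        push Not at hcon
        have := mul_pos hθ0 (sub_pos.2 hcon)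
        linarith
      rw [hSc, sub_nonneg]
      exact Real.log_le_log hB h2
  have hHx : H x = 0 := by rw [hH]; simp only; rw [hx.2, sub_self]
  have hHy : H y = 0 := by rw [hH]; simp only; rw [hy.2, sub_self]
  obtain ⟨u, hu, hu1, hu2⟩ := hslope x y le_rfl hxy hyw.le
  obtain ⟨v, hv, hv1, hv2⟩ := hslope y w hxy.le hyw le_rfl
  have huv : u < v := hu.2.trans hv.1
  have huI : u ∈ Icc x w := ⟨hu.1.le, (hu.2.trans hyw).le⟩
  have hvI : v ∈ Icc x w := ⟨(hxy.trans hv.1).le, hv.2.le⟩
  have hmem : ∀ k < n, ∀ s ∈ Icc (orb e g k u) (orb e g k v), s ∈ Ioo 0 d ∧ 0 < e k + g k s := by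
    intro k hk s hs
    have a1 := (hpass u huI).1 k hk
    have a2 := (hpass v hvI).1 k hk
    have a3 : s ∈ Ioo 0 d := ⟨a1.1.trans_le hs.1, hs.2.trans_lt a2.2⟩
    refine ⟨a3, ?_⟩
    have a4 := (hpass u huI).2 (k + 1) hk
    rcases hs.1.lt_or_eq with h1 | h1
    · have := g_lt hg hk a1 a3 h1
      have a5 : orb e g (k + 1) u = e k + g k (orb e g k u) := rfl
      linarith
    · rw [← h1]; exact a4
  have hlt : ∀ k < n, orb e g k u < orb e g k v := fun k hk => (hbt k hk.le u v hu.1.le huv hv.2.le).2.1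
  rcases h with ⟨h, hle⟩ | ⟨h, hle⟩
  · have hHw : H w ≤ H y := by
      rw [hHy, hH]
      simp only
      rw [sub_nonpos]
      have h0 : 0 ≤ orb e g n w := ((hpass w ⟨(hxy.trans hyw).le, le_rfl⟩).2 n le_rfl).le
      exact Real.rpow_le_rpow h0 hle (hθ 0).le
    have : S u < S v := by
      apply Finset.sum_lt_sum_of_nonempty (Finset.nonempty_range_iff.2 (by omega))
      intro k hk
      rw [Finset.mem_range] at hk
      have hs : StrictMonoOn (E (e k) (θ k) (θ (k + 1)) (g k)) (Icc (orb e g k u) (orb e g k v)) := by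
        apply strictMonoOn_of_deriv_pos (convex_Icc _ _)
        · intro s hs
          exact (hasDerivAt_E (hg k hk) (hmem k hk s hs).1 (hmem k hk s hs).2).continuousAt.continuousWithinAt
        · intro s hs
          rw [interior_Icc] at hs
          have hs' := hmem k hk s (Ioo_subset_Icc_self hs)
          rw [(hasDerivAt_E (hg k hk) hs'.1 hs'.2).deriv]
          exact deriv_pos_of_expanding hη (hθ _) (hg k hk) (h k hk) hs'.1 hs'.2
      exact hs (left_mem_Icc.2 (hlt k hk).le) (right_mem_Icc.2 (hlt k hk).le) (hlt k hk)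
    have a1 := hu2 (by rw [hHx, hHy])
    have a2 := hv1 hHw
    linarith
  · have hHw : H y ≤ H w := by
      rw [hHy, hH]
      simp only
      rw [sub_nonneg]
      exact Real.rpow_le_rpow (hx0.trans (hxy.trans hyw)).le hle (hθ 0).le
    have : S v < S u := by
      apply Finset.sum_lt_sum_of_nonempty (Finset.nonempty_range_iff.2 (by omega))
      intro k hk
      rw [Finset.mem_range] at hk
      have hs : StrictAntiOn (E (e k) (θ k) (θ (k + 1)) (g k)) (Icc (orb e g k u) (orb e g k v)) := by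
        apply strictAntiOn_of_deriv_neg (convex_Icc _ _)
        · intro s hs
          exact (hasDerivAt_E (hg k hk) (hmem k hk s hs).1 (hmem k hk s hs).2).continuousAt.continuousWithinAt
        · intro s hs
          rw [interior_Icc] at hs
          have hs' := hmem k hk s (Ioo_subset_Icc_self hs)
          rw [(hasDerivAt_E (hg k hk) hs'.1 hs'.2).deriv]
          exact deriv_neg_of_contracting hη (hθ _) (hg k hk) (h k hk) hs'.1 hs'.2
      exact hs (left_mem_Icc.2 (hlt k hk).le) (right_mem_Icc.2 (hlt k hk).le) (hlt k hk)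
    have a1 := hu1 (by rw [hHx, hHy])
    have a2 := hv2 hHw
    linarith

end orbit

end Pool.Agent.H43.PC
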