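import Mathlib

/-!
Weights on a cycle: shortest paths.
-/

set_option autoImplicit false

namespace Pool.Agent.H43.PC

open Finset Filter Topology

variable {n : ℕ} {l : ℕ → ℝ} {s : ℕ → Prop}

theorem prod_period (hl : ∀ k, 0 < l k) (hper : ∀ k, l (k + n) = l k) (p : ℕ) :
    ∏ j ∈ Ico p (p + n), l j = ∏ j ∈ range n, l j := by
  induction p with
  | zero => rw [zero_add, ← Finset.range_eq_Ico]
  | succ p ih =>
    rw [← ih]
    rcases Nat.eq_zero_or_pos n with rfl | hn
    · simp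
    have h1 : ∏ j ∈ Ico p (p + n + 1), l j = l p * ∏ j ∈ Ico (p + 1) (p + n + 1), l j :=
      Finset.prod_eq_prod_Ico_succ_bot (by omega) _
    have h2 : ∏ j ∈ Ico p (p + n + 1), l j = (∏ j ∈ Ico p (p + n), l j) * l (p + n) :=
      Finset.prod_Ico_succ_top (by omega) _
    rw [h2, hper, mul_comm] at h1
    have h3 := mul_left_cancel₀ (hl p).ne' h1
    rw [show p + 1 + n = p + n + 1 from by omega]
    exact h3.symm

/-- Existence of the weights. -/
theorem pot (hn : 1 ≤ n) (hl : ∀ k, 0 < l k) (hper : ∀ k, l (k + n) = l k)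
    (hs : ∀ k, s (k + n) ↔ s k) (htot : 1 < ∏ j ∈ range n, l j)
    (hpair : ∀ a b, a < b → b ≤ a + n → ¬ s a → s b → 1 < ∏ j ∈ Ico (a + 1) (b + 1), l j) :
    ∃ φ : ℕ → ℝ, (∀ k, 0 < φ k) ∧ φ n = φ 0 ∧ ∀ k < n,
      (s k → φ k < l k * min 1 (φ (k + 1))) ∧ (¬ s k → 1 ≤ φ (k + 1) ∧ φ k < l k * φ (k + 1)) := by
  classical
  -- a factor `ρ < 1` that keeps the finitely many inequalities
  obtain ⟨ρ, hρ1, hρ0, hρt, hρp⟩ : ∃ ρ : ℝ, ρ < 1 ∧ 0 < ρ ∧ 1 < ρ ^ n * ∏ j ∈ range n, l j ∧
      ∀ a ∈ range n, ∀ b ∈ range (2 * n), a < b → b ≤ a + n → ¬ s a → s b →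
        1 < ρ ^ n * ∏ j ∈ Ico (a + 1) (b + 1), l j := by
    have key : ∀ v : ℝ, 1 < v → ∀ᶠ ρ in 𝓝[<] (1 : ℝ), 1 < ρ ^ n * v := by
      intro v hv
      have hc : Tendsto (fun ρ : ℝ => ρ ^ n * v) (𝓝[<] 1) (𝓝 (1 ^ n * v)) :=
        ((continuous_pow n).mul continuous_const).continuousAt.tendsto.mono_left nhdsWithin_le_nhds
      rw [one_pow, one_mul] at hc
      exact hc.eventually (lt_mem_nhds hv)
    have h1 : ∀ᶠ ρ in 𝓝[<] (1 : ℝ), ρ < 1 := eventually_mem_nhdsWithin
    have h2 : ∀ᶠ ρ in 𝓝[<] (1 : ℝ), 0 < ρ :=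
      (eventually_gt_nhds (by norm_num : (0 : ℝ) < 1)).filter_mono nhdsWithin_le_nhds
    have h3 := key _ htot
    have h4 : ∀ᶠ ρ in 𝓝[<] (1 : ℝ), ∀ a ∈ range n, ∀ b ∈ range (2 * n), a < b → b ≤ a + n → ¬ s a → s b →
        1 < ρ ^ n * ∏ j ∈ Ico (a + 1) (b + 1), l j := by
      rw [Filter.eventually_all_finset]
      intro a _
      rw [Filter.eventually_all_finset]
      intro b _
      by_cases h : a < b ∧ b ≤ a + n ∧ ¬ s a ∧ s b
      · filter_upwards [key _ (hpair a b h.1 h.2.1 h.2.2.1 h.2.2.2)] with ρ hρ _ _ _ _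
        exact hρ
      · filter_upwards with ρ a1 a2 a3 a4
        exact absurd ⟨a1, a2, a3, a4⟩ h
    obtain ⟨ρ, a1, a2, a3, a4⟩ := (h1.and (h2.and (h3.and h4))).exists
    exact ⟨ρ, a1, a2, a3, a4⟩
  set L : ℕ → ℝ := fun j => ρ * l j with hL
  have hLpos : ∀ j, 0 < L j := fun j => mul_pos hρ0 (hl j)
  have hLper : ∀ j, L (j + n) = L j := fun j => by rw [hL]; simp only [hper]
  have hprodL : ∀ p q : ℕ, p ≤ q → q ≤ p + n → ρ ^ n * ∏ j ∈ Ico p q, l j ≤ ∏ j ∈ Ico p q, L j := by
    intro p q _ hq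
    rw [hL, Finset.prod_mul_distrib, Finset.prod_const, Nat.card_Ico]
    apply mul_le_mul_of_nonneg_right _ (Finset.prod_nonneg fun j _ => (hl j).le)
    exact pow_le_pow_of_le_one hρ0.le hρ1.le (by omega)
  have hLn : ∏ j ∈ range n, L j = ρ ^ n * ∏ j ∈ range n, l j := by
    rw [hL, Finset.prod_mul_distrib, Finset.prod_const, Finset.card_range]
  suffices hsuff : ∃ Φ : ℕ → ℝ, (∀ k, 0 < Φ k) ∧ Φ n ≤ Φ 0 ∧ ∀ k < n,
      Φ k ≤ L k * Φ (k + 1) ∧ (s k → Φ k ≤ L k) ∧ (¬ s k → 1 ≤ Φ (k + 1)) by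
    obtain ⟨Φ, hΦ, hΦn, hΦk⟩ := hsuff
    set φ : ℕ → ℝ := fun k => if k = n then Φ 0 else Φ k with hφ
    have hge : ∀ k, Φ k ≤ φ k := by
      intro k
      rw [hφ]
      simp only
      split_ifs with h
      · rw [h]; exact hΦn
      · exact le_rfl
    have hφ0 : φ 0 = Φ 0 := by
      rw [hφ]
      simp only
      rw [if_neg (by omega)]
    have hφn : φ n = Φ 0 := by
      rw [hφ]
      simp only [if_true]
    have hφpos : ∀ k, 0 < φ k := fun k => (hΦ k).trans_le (hge k)
    refine ⟨φ, hφpos, by rw [hφn, hφ0], fun k hk => ?_⟩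
    obtain ⟨b1, b2, b3⟩ := hΦk k hk
    have hφk : φ k = Φ k := by
      rw [hφ]
      simp only
      rw [if_neg (by omega)]
    have hLl : L k < l k := by
      have := hl k
      change ρ * l k < l k
      nlinarith
    have b1' : φ k ≤ L k * φ (k + 1) := by
      rw [hφk]
      exact b1.trans (mul_le_mul_of_nonneg_left (hge _) (hLpos k).le)
    refine ⟨fun hsk => ?_, fun hsk => ⟨(b3 hsk).trans (hge _), ?_⟩⟩
    · have hmin : 0 < min 1 (φ (k + 1)) := lt_min one_pos (hφpos _)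
      have h1 : φ k ≤ L k * min 1 (φ (k + 1)) := by
        rcases le_total 1 (φ (k + 1)) with h | h
        · rw [min_eq_left h, mul_one, hφk]; exact b2 hsk
        · rw [min_eq_right h]; exact b1'
      exact h1.trans_lt (mul_lt_mul_of_pos_right hLl hmin)
    · exact b1'.trans_lt (mul_lt_mul_of_pos_right hLl (hφpos _))
  by_cases hex : ∃ b0 < n, s b0
  · obtain ⟨b0, hb0, hsb0⟩ := hex
    set T : ℕ → Finset ℕ := fun k => (Ico k (k + n)).filter s with hT
    have hTmem : ∀ k b, b ∈ T k ↔ (k ≤ b ∧ b < k + n) ∧ s b := fun k b => by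
      rw [hT]; simp only [Finset.mem_filter, Finset.mem_Ico]
    have hTne : ∀ k ≤ n, (T k).Nonempty := by
      intro k hk
      rcases le_or_gt k b0 with h | h
      · exact ⟨b0, (hTmem k b0).2 ⟨⟨h, by omega⟩, hsb0⟩⟩
      · exact ⟨b0 + n, (hTmem k _).2 ⟨⟨by omega, by omega⟩, (hs b0).2 hsb0⟩⟩
    set Φ : ℕ → ℝ := fun k => if h : (T k).Nonempty then
      (T k).inf' h (fun b => ∏ j ∈ Ico k (b + 1), L j) else 1 with hΦ
    have hΦle : ∀ k b, b ∈ T k → Φ k ≤ ∏ j ∈ Ico k (b + 1), L j := by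
      intro k b hb
      have hne : (T k).Nonempty := ⟨b, hb⟩
      rw [hΦ]
      simp only
      rw [dif_pos hne]
      exact Finset.inf'_le _ hb
    have hΦeq : ∀ k ≤ n, ∃ b ∈ T k, Φ k = ∏ j ∈ Ico k (b + 1), L j := by
      intro k hk
      obtain ⟨b, hb, h⟩ := Finset.exists_mem_eq_inf' (hTne k hk) (fun b => ∏ j ∈ Ico k (b + 1), L j)
      refine ⟨b, hb, ?_⟩
      rw [hΦ]
      simp only
      rw [dif_pos (hTne k hk)]
      exact h
    refine ⟨Φ, ?_, ?_, ?_⟩
    · intro k
      rw [hΦ]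
      simp only
      split_ifs with h
      · rw [Finset.lt_inf'_iff]
        intro b _
        exact Finset.prod_pos fun j _ => hLpos j
      · exact one_pos
    · obtain ⟨b, hb, h⟩ := hΦeq 0 (by omega)
      rw [hTmem] at hb
      have hb' : b + n ∈ T n := (hTmem n _).2 ⟨⟨by omega, by omega⟩, (hs b).2 hb.2⟩
      have h1 := hΦle n _ hb'
      have h2 : ∏ j ∈ Ico n (b + n + 1), L j = ∏ j ∈ Ico 0 (b + 1), L j := by
        rw [show b + n + 1 = b + 1 + n from by omega]
        conv_lhs => rw [show n = 0 + n from by omega, show b + 1 + (0 + n) = b + 1 + n from by omega]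
        rw [← Finset.prod_Ico_add' L 0 (b + 1) n]
        exact Finset.prod_congr rfl fun j _ => hLper j
      rw [h, ← h2]
      exact h1
    · intro k hk
      obtain ⟨b, hb, h⟩ := hΦeq (k + 1) (by omega)
      rw [hTmem] at hb
      have hkT : s k → Φ k ≤ L k := by
        intro hsk
        have h1 := hΦle k k ((hTmem k k).2 ⟨⟨le_rfl, by omega⟩, hsk⟩)
        rwa [Nat.Ico_succ_singleton, Finset.prod_singleton] at h1
      refine ⟨?_, hkT, ?_⟩
      · rcases lt_or_ge b (k + n) with h1 | h1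
        · have h2 := hΦle k b ((hTmem k b).2 ⟨⟨by omega, h1⟩, hb.2⟩)
          rw [Finset.prod_eq_prod_Ico_succ_bot (by omega : k < b + 1), ← h] at h2
          exact h2
        · have hbk : b = k + n := by omega
          subst hbk
          have hsk : s k := (hs k).1 hb.2
          have h2 : Φ (k + 1) = ∏ j ∈ range n, L j := by
            rw [h, ← prod_period hLpos hLper (k + 1), show k + 1 + n = k + n + 1 from by omega]
          have h3 : 1 ≤ Φ (k + 1) := by rw [h2, hLn]; exact hρt.le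
          calc Φ k ≤ L k := hkT hsk
            _ = L k * 1 := (mul_one _).symm
            _ ≤ L k * Φ (k + 1) := mul_le_mul_of_nonneg_left h3 (hLpos k).le
      · intro hsk
        rw [h]
        have h1 := hρp k (Finset.mem_range.2 hk) b (Finset.mem_range.2 (by
          rcases lt_or_ge b (2 * n) with h2 | h2
          · exact h2
          · have hbk : b = k + n := by omega
            subst hbk
            exact absurd ((hs k).1 hb.2) hsk)) (by omega) (by omega) hsk hb.2
        exact h1.le.trans (hprodL (k + 1) (b + 1) (by omega) (by omega))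
  · push Not at hex
    set M : ℕ → ℝ := fun k => ∏ j ∈ range k, L j with hM
    have hMpos : ∀ k, 0 < M k := fun k => Finset.prod_pos fun j _ => hLpos j
    set C : ℝ := ∑ k ∈ range (n + 1), M k with hC
    have hCM : ∀ k ≤ n, M k ≤ C := fun k hk =>
      Finset.single_le_sum (f := M) (fun j _ => (hMpos j).le) (Finset.mem_range.2 (by omega))
    have hCpos : 0 < C := (hMpos 0).trans_le (hCM 0 (by omega))
    refine ⟨fun k => C / M k, fun k => div_pos hCpos (hMpos k), ?_, fun k hk => ⟨?_, ?_, ?_⟩⟩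
    · simp only
      apply div_le_div_of_nonneg_left hCpos.le (hMpos 0)
      have h1 : M 0 = 1 := by rw [hM]; simp
      have h2 : M n = ρ ^ n * ∏ j ∈ range n, l j := hLn
      rw [h1, h2]
      exact hρt.le
    · simp only
      have h1 : M (k + 1) = M k * L k := Finset.prod_range_succ _ _
      rw [h1]
      have := (hMpos k).ne'
      have := (hLpos k).ne'
      apply le_of_eq
      field_simp
    · intro h
      exact absurd h (hex k hk)
    · intro _
      simp only
      rw [le_div_iff₀ (hMpos _), one_mul]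
      exact hCM _ (by omega)

end Pool.Agent.H43.PC
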