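import Mathlib
import Pool.Agent.H43.PC.Core
import Pool.Agent.H43.PC.Pot

/-!
At most one fixed point near the polycycle.
-/

set_option autoImplicit false

namespace Pool.Agent.H43.PC

open Set Filter Topology

/-- the coefficients of the iterated power bounds -/
noncomputable def cf (c : ℝ) (m : ℕ → ℝ) : ℕ → ℝ
  | 0 => 1
  | k + 1 => c * cf c m k ^ m k

theorem cf_pos {c : ℝ} (hc : 0 < c) (m : ℕ → ℝ) (k : ℕ) : 0 < cf c m k := by
  induction k with
  | zero => exact one_pos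
  | succ k ih => exact mul_pos hc (Real.rpow_pos_of_pos ih _)

/-- iterated power bound -/
noncomputable def vv (c : ℝ) (m : ℕ → ℝ) (δ : ℝ) (k : ℕ) : ℝ :=
  cf c m k * δ ^ (∏ j ∈ Finset.range k, m j)

theorem vv_zero (c : ℝ) (m : ℕ → ℝ) (δ : ℝ) : vv c m δ 0 = δ := by
  simp [vv, cf]

theorem vv_pos {c : ℝ} (hc : 0 < c) (m : ℕ → ℝ) {δ : ℝ} (hδ : 0 < δ) (k : ℕ) : 0 < vv c m δ k :=
  mul_pos (cf_pos hc m k) (Real.rpow_pos_of_pos hδ _)

theorem vv_succ {c : ℝ} (hc : 0 < c) (m : ℕ → ℝ) {δ : ℝ} (hδ : 0 < δ) (k : ℕ) :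
    vv c m δ (k + 1) = c * vv c m δ k ^ m k := by
  unfold vv
  rw [Finset.prod_range_succ, Real.mul_rpow (cf_pos hc m k).le (Real.rpow_pos_of_pos hδ _).le,
    ← Real.rpow_mul hδ.le]
  change c * cf c m k ^ m k * _ = _
  ring

theorem tendsto_rpow_zero {p : ℝ} (hp : 0 < p) : Tendsto (fun δ : ℝ => δ ^ p) (𝓝[>] 0) (𝓝 0) := by
  have h := (Real.continuousAt_rpow_const (0 : ℝ) p (Or.inr hp.le)).tendsto
  rw [Real.zero_rpow hp.ne'] at h
  exact h.mono_left nhdsWithin_le_nhds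

theorem vv_tendsto (c : ℝ) (m : ℕ → ℝ) (k : ℕ) (hm : ∀ j < k, 0 < m j) :
    Tendsto (fun δ : ℝ => vv c m δ k) (𝓝[>] 0) (𝓝 0) := by
  have h := (tendsto_rpow_zero (p := ∏ j ∈ Finset.range k, m j)
    (Finset.prod_pos fun j hj => hm j (Finset.mem_range.1 hj))).const_mul (cf c m k)
  rw [mul_zero] at h
  exact h

theorem vv_lt {c : ℝ} (m : ℕ → ℝ) (n : ℕ) (hM : 1 < ∏ j ∈ Finset.range n, m j) :
    ∀ᶠ δ in 𝓝[>] (0 : ℝ), vv c m δ n < δ := by
  have h := (tendsto_rpow_zero (p := (∏ j ∈ Finset.range n, m j) - 1) (by linarith)).const_mul (cf c m n)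
  rw [mul_zero] at h
  filter_upwards [h.eventually (gt_mem_nhds one_pos), eventually_mem_nhdsWithin] with δ h1 h2
  have hδ : (0 : ℝ) < δ := h2
  unfold vv
  have e : δ ^ (∏ j ∈ Finset.range n, m j) = δ ^ ((∏ j ∈ Finset.range n, m j) - 1) * δ := by
    rw [← Real.rpow_add_one hδ.ne']
    congr 1
    ring
  rw [e, ← mul_assoc]
  exact mul_lt_of_lt_one_left hδ h1

theorem lt_vv {c : ℝ} (hc : 0 < c) (m : ℕ → ℝ) (n : ℕ) (hM : ∏ j ∈ Finset.range n, m j < 1) :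
    ∀ᶠ δ in 𝓝[>] (0 : ℝ), δ < vv c m δ n := by
  have h := tendsto_rpow_zero (p := 1 - (∏ j ∈ Finset.range n, m j)) (by linarith)
  filter_upwards [h.eventually (gt_mem_nhds (cf_pos hc m n)), eventually_mem_nhdsWithin] with δ h1 h2
  have hδ : (0 : ℝ) < δ := h2
  unfold vv
  have e : δ = δ ^ (1 - (∏ j ∈ Finset.range n, m j)) * δ ^ (∏ j ∈ Finset.range n, m j) := by
    rw [← Real.rpow_add hδ, sub_add_cancel, Real.rpow_one]
  conv_lhs => rw [e]
  exact mul_lt_mul_of_pos_right h1 (Real.rpow_pos_of_pos hδ _)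

section

variable {d η C : ℝ} {l : ℕ → ℝ} {n : ℕ}

/-- **At most one fixed point near the polycycle.** -/
theorem local_one (hη : 0 < η) (hn : 1 ≤ n) (hl : ∀ k < n, η < l k) (θ : ℕ → ℝ) (hθ : ∀ k, 0 < θ k)
    (hper : θ n = θ 0) (Q : (ℕ → ℝ) → Prop)
    (h : (∀ e, Q e → ∀ k < n, Expanding η (l k) (e k) (θ k) (θ (k + 1))) ∧
          1 < ∏ k ∈ Finset.range n, (l k - η) ∨
      (∀ e, Q e → ∀ k < n, Contracting η (l k) (e k) (θ k) (θ (k + 1))) ∧
          ∏ k ∈ Finset.range n, (l k + η) < 1) (hd : 0 < d) (hC : 0 < C) :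
    ∃ δ > 0, ∃ ε > 0, ∀ (e : ℕ → ℝ) (g : ℕ → ℝ → ℝ), Q e → (∀ k < n, |e k| < ε) →
      (∀ k < n, HasExponent d (l k) η (g k)) →
      (∀ k < n, ∀ x ∈ Ioo 0 d, x ^ (l k + η) / C ≤ g k x ∧ g k x ≤ C * x ^ (l k - η)) →
      ∀ x y, IsCycle d e g n x → IsCycle d e g n y → x < y → y < δ → False := by
  set m : ℕ → ℝ := fun k => l k - η with hm
  set p : ℕ → ℝ := fun k => l k + η with hp
  have hmpos : ∀ k < n, 0 < m k := fun k hk => by
    have := hl k hk
    rw [hm]; simp only; linarith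
  have hppos : ∀ k < n, 0 < p k := fun k hk => by
    have := hl k hk
    rw [hp]; simp only; linarith
  have h2C : 0 < 2 * C := by linarith
  have h2C' : 0 < (2 * C)⁻¹ := inv_pos.2 h2C
  have ev1 : ∀ᶠ δ in 𝓝[>] (0 : ℝ), ∀ k ∈ Finset.range n, vv (2 * C) m δ k < d := by
    rw [Filter.eventually_all_finset]
    intro k hk
    rw [Finset.mem_range] at hk
    exact (vv_tendsto (2 * C) m k (fun j hj => hmpos j (by omega))).eventually (gt_mem_nhds hd)
  have ev2 : ∀ᶠ δ in 𝓝[>] (0 : ℝ), (1 < ∏ k ∈ Finset.range n, m k → vv (2 * C) m δ n < δ) ∧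
      (∏ k ∈ Finset.range n, p k < 1 → δ < vv (2 * C)⁻¹ p δ n) := by
    refine Filter.Eventually.and ?_ ?_
    · by_cases h1 : 1 < ∏ k ∈ Finset.range n, m k
      · filter_upwards [vv_lt (c := 2 * C) m n h1] with δ hδ _ using hδ
      · filter_upwards with δ h2 using absurd h2 h1
    · by_cases h1 : ∏ k ∈ Finset.range n, p k < 1
      · filter_upwards [lt_vv h2C' p n h1] with δ hδ _ using hδ
      · filter_upwards with δ h2 using absurd h2 h1
  have ev3 : ∀ᶠ δ in 𝓝[>] (0 : ℝ), (0 : ℝ) < δ := eventually_mem_nhdsWithin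
  obtain ⟨δ, hδ1, ⟨hδ2, hδ3⟩, hδ⟩ := (ev1.and (ev2.and ev3)).exists
  -- the bound on the breaking parameters
  obtain ⟨ε, hε, hε1⟩ : ∃ ε > 0, ∀ k < n, ε ≤ C * vv (2 * C) m δ k ^ m k ∧
      ε ≤ (2 * C)⁻¹ * vv (2 * C)⁻¹ p δ k ^ p k := by
    have ev : ∀ᶠ ε in 𝓝[>] (0 : ℝ), ∀ k ∈ Finset.range n, ε ≤ C * vv (2 * C) m δ k ^ m k ∧
        ε ≤ (2 * C)⁻¹ * vv (2 * C)⁻¹ p δ k ^ p k := by
      rw [Filter.eventually_all_finset]
      intro k _
      have a1 : 0 < C * vv (2 * C) m δ k ^ m k := mul_pos hC (Real.rpow_pos_of_pos (vv_pos h2C m hδ k) _)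
      have a2 : 0 < (2 * C)⁻¹ * vv (2 * C)⁻¹ p δ k ^ p k :=
        mul_pos h2C' (Real.rpow_pos_of_pos (vv_pos h2C' p hδ k) _)
      have b1 : ∀ᶠ ε in 𝓝[>] (0 : ℝ), ε ≤ C * vv (2 * C) m δ k ^ m k :=
        (eventually_le_nhds a1).filter_mono nhdsWithin_le_nhds
      have b2 : ∀ᶠ ε in 𝓝[>] (0 : ℝ), ε ≤ (2 * C)⁻¹ * vv (2 * C)⁻¹ p δ k ^ p k :=
        (eventually_le_nhds a2).filter_mono nhdsWithin_le_nhds
      exact b1.and b2
    obtain ⟨ε, h1, h2⟩ := (ev.and (eventually_mem_nhdsWithin : ∀ᶠ ε in 𝓝[>] (0 : ℝ), ε ∈ Ioi (0 : ℝ))).exists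
    exact ⟨ε, h2, fun k hk => h1 k (Finset.mem_range.2 hk)⟩
  refine ⟨δ, hδ, ε, hε, fun e g hQ he hg hbd x y hx hy hxy hyδ => ?_⟩
  have hypos : ∀ k ≤ n, 0 < orb e g k y := by
    intro k hk
    rcases hk.lt_or_eq with h1 | h1
    · exact (hy.1 k h1).1
    · rw [h1, hy.2]; exact (hy.1 0 (by omega)).1
  -- the orbit of `δ`
  have hup : ∀ k ≤ n, orb e g k y < orb e g k δ ∧ orb e g k δ ≤ vv (2 * C) m δ k := by
    intro k
    induction k with
    | zero =>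
      intro _
      exact ⟨hyδ, by rw [vv_zero]; exact le_rfl⟩
    | succ k ih =>
      intro hk
      obtain ⟨a1, a2⟩ := ih (by omega)
      have hkn : k < n := by omega
      have a3 : orb e g k δ ∈ Ioo 0 d :=
        ⟨(hypos k hkn.le).trans a1, a2.trans_lt (hδ1 k (Finset.mem_range.2 hkn))⟩
      refine ⟨?_, ?_⟩
      · have := g_lt hg hkn (hy.1 k hkn) a3 a1
        change e k + g k (orb e g k y) < e k + g k (orb e g k δ)
        linarith
      · have b1 := (abs_lt.1 (he k hkn)).2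
        have b2 := (hbd k hkn _ a3).2
        have b3 : orb e g k δ ^ m k ≤ vv (2 * C) m δ k ^ m k := Real.rpow_le_rpow a3.1.le a2 (hmpos k hkn).le
        have b4 := (hε1 k hkn).1
        have b5 : C * orb e g k δ ^ m k ≤ C * vv (2 * C) m δ k ^ m k := mul_le_mul_of_nonneg_left b3 hC.le
        rw [vv_succ h2C m hδ]
        change e k + g k (orb e g k δ) ≤ _
        have b6 : g k (orb e g k δ) ≤ C * orb e g k δ ^ m k := b2
        linarith
  have hpassδ : ∀ k < n, orb e g k δ ∈ Ioo 0 d := fun k hk =>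
    ⟨(hypos k hk.le).trans (hup k hk.le).1, (hup k hk.le).2.trans_lt (hδ1 k (Finset.mem_range.2 hk))⟩
  rcases h with ⟨h1, h2⟩ | ⟨h1, h2⟩
  · exact core hη.le hn θ hθ hper hg hx hy hpassδ hxy hyδ
      (Or.inl ⟨h1 e hQ, (hup n le_rfl).2.trans (hδ2 h2).le⟩)
  · have hlow : ∀ k ≤ n, vv (2 * C)⁻¹ p δ k ≤ orb e g k δ := by
      intro k
      induction k with
      | zero =>
        intro _
        rw [vv_zero]
        exact le_rfl
      | succ k ih =>
        intro hk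
        have a1 := ih (by omega)
        have hkn : k < n := by omega
        have b1 := (abs_lt.1 (he k hkn)).1
        have b2 := (hbd k hkn _ (hpassδ k hkn)).1
        have b3 : vv (2 * C)⁻¹ p δ k ^ p k ≤ orb e g k δ ^ p k :=
          Real.rpow_le_rpow (vv_pos h2C' p hδ k).le a1 (hppos k hkn).le
        have b4 := (hε1 k hkn).2
        rw [vv_succ h2C' p hδ]
        change _ ≤ e k + g k (orb e g k δ)
        have b6 : orb e g k δ ^ p k / C ≤ g k (orb e g k δ) := b2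
        have b7 : vv (2 * C)⁻¹ p δ k ^ p k / C ≤ orb e g k δ ^ p k / C := by
          apply div_le_div_of_nonneg_right b3 hC.le
        have b8 : vv (2 * C)⁻¹ p δ k ^ p k / C = 2 * ((2 * C)⁻¹ * vv (2 * C)⁻¹ p δ k ^ p k) := by
          field_simp
        linarith
    exact core hη.le hn θ hθ hper hg hx hy hpassδ hxy hyδ
      (Or.inr ⟨h1 e hQ, (hδ3 h2).le.trans (hlow n le_rfl)⟩)

end

end Pool.Agent.H43.PC
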