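import Mathlib
import Pool.Agent.H43.PC.Loc

/-!
The weights satisfy the strict inequalities with some `η > 0`.
-/

set_option autoImplicit false

namespace Pool.Agent.H43.PC

open Filter Topology

/-- the sign pattern: `e k ≥ 0` where `s k` holds, `e k ≤ 0` elsewhere -/
def Signs (s : ℕ → Prop) (n : ℕ) (e : ℕ → ℝ) : Prop :=
  ∀ k < n, (s k → 0 ≤ e k) ∧ (¬ s k → e k ≤ 0)

variable {n : ℕ} {l : ℕ → ℝ} {s : ℕ → Prop}

theorem lt_eventually {F : ℝ → ℝ} {G : ℝ → ℝ} (hF : ContinuousAt F 0) (hG : ContinuousAt G 0) (h : F 0 < G 0) :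
    ∀ᶠ η in 𝓝[>] (0 : ℝ), F η < G η :=
  (hF.eventually_lt hG h).filter_mono nhdsWithin_le_nhds

theorem eta_expanding (hl : ∀ k, 0 < l k) (htot : 1 < ∏ j ∈ Finset.range n, l j) (φ : ℕ → ℝ) (hφ : ∀ k, 0 < φ k)
    (h : ∀ k < n, (s k → φ k < l k * min 1 (φ (k + 1))) ∧ (¬ s k → 1 ≤ φ (k + 1) ∧ φ k < l k * φ (k + 1))) :
    ∃ η > 0, (∀ k < n, η < l k) ∧ 1 < ∏ k ∈ Finset.range n, (l k - η) ∧
      ∀ e, Signs s n e → ∀ k < n, Expanding η (l k) (e k) (φ k) (φ (k + 1)) := by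
  have ev1 : ∀ᶠ η in 𝓝[>] (0 : ℝ), ∀ k ∈ Finset.range n, η < l k := by
    rw [Filter.eventually_all_finset]
    intro k _
    exact lt_eventually (F := fun η => η) (G := fun _ => l k) continuousAt_id continuousAt_const (hl k)
  have ev2 : ∀ᶠ η in 𝓝[>] (0 : ℝ), 1 < ∏ k ∈ Finset.range n, (l k - η) := by
    apply lt_eventually (F := fun _ => 1) (G := fun η => ∏ k ∈ Finset.range n, (l k - η)) continuousAt_const
    · fun_prop
    · simpa using htot
  have ev3 : ∀ᶠ η in 𝓝[>] (0 : ℝ), ∀ k ∈ Finset.range n, (s k → φ k + 2 * η < l k * min 1 (φ (k + 1))) := by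
    rw [Filter.eventually_all_finset]
    intro k hk
    rw [Finset.mem_range] at hk
    by_cases hs : s k
    · have := lt_eventually (F := fun η => φ k + 2 * η) (G := fun _ => l k * min 1 (φ (k + 1)))
        (by fun_prop) continuousAt_const (by simpa using (h k hk).1 hs)
      filter_upwards [this] with η h1 _ using h1
    · filter_upwards with η h1 using absurd h1 hs
  have ev4 : ∀ᶠ η in 𝓝[>] (0 : ℝ), ∀ k ∈ Finset.range n, (¬ s k → φ k < (l k - η) * φ (k + 1)) := by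
    rw [Filter.eventually_all_finset]
    intro k hk
    rw [Finset.mem_range] at hk
    by_cases hs : s k
    · filter_upwards with η h1 using absurd hs h1
    · have := lt_eventually (F := fun _ => φ k) (G := fun η => (l k - η) * φ (k + 1))
        continuousAt_const (by fun_prop) (by simpa using ((h k hk).2 hs).2)
      filter_upwards [this] with η h1 _ using h1
  obtain ⟨η, a1, a2, a3, a4, a5⟩ := (ev1.and (ev2.and (ev3.and (ev4.and
    (eventually_mem_nhdsWithin : ∀ᶠ η in 𝓝[>] (0 : ℝ), η ∈ Set.Ioi (0 : ℝ)))))).exists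
  refine ⟨η, a5, fun k hk => a1 k (Finset.mem_range.2 hk), a2, fun e he k hk => ?_⟩
  by_cases hs : s k
  · exact Or.inl ⟨(he k hk).1 hs, a3 k (Finset.mem_range.2 hk) hs⟩
  · exact Or.inr ⟨(he k hk).2 hs, ((h k hk).2 hs).1, a4 k (Finset.mem_range.2 hk) hs⟩

theorem eta_contracting (hl : ∀ k, 0 < l k) (htot : ∏ j ∈ Finset.range n, l j < 1) (θ : ℕ → ℝ) (hθ : ∀ k, 0 < θ k)
    (h : ∀ k < n, (s k → l k * max 1 (θ (k + 1)) < θ k) ∧ (¬ s k → θ (k + 1) ≤ 1 ∧ l k * θ (k + 1) < θ k)) :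
    ∃ η > 0, (∀ k < n, η < l k) ∧ ∏ k ∈ Finset.range n, (l k + η) < 1 ∧
      ∀ e, Signs s n e → ∀ k < n, Contracting η (l k) (e k) (θ k) (θ (k + 1)) := by
  have ev1 : ∀ᶠ η in 𝓝[>] (0 : ℝ), ∀ k ∈ Finset.range n, η < l k := by
    rw [Filter.eventually_all_finset]
    intro k _
    exact lt_eventually (F := fun η => η) (G := fun _ => l k) continuousAt_id continuousAt_const (hl k)
  have ev2 : ∀ᶠ η in 𝓝[>] (0 : ℝ), ∏ k ∈ Finset.range n, (l k + η) < 1 := by
    apply lt_eventually (G := fun _ => 1) (F := fun η => ∏ k ∈ Finset.range n, (l k + η)) _ continuousAt_const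
    · simpa using htot
    · fun_prop
  have ev3 : ∀ᶠ η in 𝓝[>] (0 : ℝ), ∀ k ∈ Finset.range n, (s k → (l k + η) * max 1 (θ (k + 1)) < θ k) := by
    rw [Filter.eventually_all_finset]
    intro k hk
    rw [Finset.mem_range] at hk
    by_cases hs : s k
    · have := lt_eventually (F := fun η => (l k + η) * max 1 (θ (k + 1))) (G := fun _ => θ k)
        (by fun_prop) continuousAt_const (by simpa using (h k hk).1 hs)
      filter_upwards [this] with η h1 _ using h1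
    · filter_upwards with η h1 using absurd h1 hs
  have ev4 : ∀ᶠ η in 𝓝[>] (0 : ℝ), ∀ k ∈ Finset.range n, (¬ s k → l k * θ (k + 1) + 2 * η < θ k) := by
    rw [Filter.eventually_all_finset]
    intro k hk
    rw [Finset.mem_range] at hk
    by_cases hs : s k
    · filter_upwards with η h1 using absurd hs h1
    · have := lt_eventually (F := fun η => l k * θ (k + 1) + 2 * η) (G := fun _ => θ k)
        (by fun_prop) continuousAt_const (by simpa using ((h k hk).2 hs).2)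
      filter_upwards [this] with η h1 _ using h1
  obtain ⟨η, a1, a2, a3, a4, a5⟩ := (ev1.and (ev2.and (ev3.and (ev4.and
    (eventually_mem_nhdsWithin : ∀ᶠ η in 𝓝[>] (0 : ℝ), η ∈ Set.Ioi (0 : ℝ)))))).exists
  refine ⟨η, a5, fun k hk => a1 k (Finset.mem_range.2 hk), a2, fun e he k hk => ?_⟩
  by_cases hs : s k
  · exact Or.inl ⟨(he k hk).1 hs, a3 k (Finset.mem_range.2 hk) hs⟩
  · exact Or.inr ⟨(he k hk).2 hs, ((h k hk).2 hs).1, a4 k (Finset.mem_range.2 hk) hs⟩

/-- Both cases of the product condition give weights and `η`. -/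
theorem weights (hn : 1 ≤ n) (hl : ∀ k, 0 < l k) (hper : ∀ k, l (k + n) = l k) (hs : ∀ k, s (k + n) ↔ s k)
    (h : (1 < ∏ j ∈ Finset.range n, l j ∧ ∀ a b, a < b → b ≤ a + n → ¬ s a → s b →
        1 < ∏ j ∈ Finset.Ico (a + 1) (b + 1), l j) ∨
      (∏ j ∈ Finset.range n, l j < 1 ∧ ∀ a b, a < b → b ≤ a + n → ¬ s a → s b →
        ∏ j ∈ Finset.Ico (a + 1) (b + 1), l j < 1)) :
    ∃ η > 0, (∀ k < n, η < l k) ∧ ∃ θ : ℕ → ℝ, (∀ k, 0 < θ k) ∧ θ n = θ 0 ∧
      ((∀ e, Signs s n e → ∀ k < n, Expanding η (l k) (e k) (θ k) (θ (k + 1))) ∧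
          1 < ∏ k ∈ Finset.range n, (l k - η) ∨
        (∀ e, Signs s n e → ∀ k < n, Contracting η (l k) (e k) (θ k) (θ (k + 1))) ∧
          ∏ k ∈ Finset.range n, (l k + η) < 1) := by
  rcases h with ⟨h1, h2⟩ | ⟨h1, h2⟩
  · obtain ⟨φ, hφ, hφn, hφk⟩ := pot hn hl hper hs h1 h2
    obtain ⟨η, hη, a1, a2, a3⟩ := eta_expanding (s := s) hl h1 φ hφ hφk
    exact ⟨η, hη, a1, φ, hφ, hφn, Or.inl ⟨a3, a2⟩⟩
  · have hinv : ∀ T : Finset ℕ, ∏ j ∈ T, l j < 1 → 1 < ∏ j ∈ T, (l j)⁻¹ := by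
      intro T hT
      rw [Finset.prod_inv_distrib]
      exact (one_lt_inv₀ (Finset.prod_pos fun j _ => hl j)).2 hT
    obtain ⟨φ, hφ, hφn, hφk⟩ := pot (l := fun k => (l k)⁻¹) hn (fun k => inv_pos.2 (hl k))
      (fun k => by simp only [hper]) hs (hinv _ h1) (fun a b c1 c2 c3 c4 => hinv _ (h2 a b c1 c2 c3 c4))
    obtain ⟨η, hη, a1, a2, a3⟩ := eta_contracting (s := s) hl h1 (fun k => (φ k)⁻¹) (fun k => inv_pos.2 (hφ k)) (by
      intro k hk
      obtain ⟨b1, b2⟩ := hφk k hk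
      have hlk := hl k
      have hp := hφ k
      have hp' := hφ (k + 1)
      refine ⟨fun hsk => ?_, fun hsk => ⟨?_, ?_⟩⟩
      · have h3 := b1 hsk
        rw [inv_mul_eq_div, lt_div_iff₀ hlk] at h3
        rcases le_total 1 (φ (k + 1)) with h4 | h4
        · rw [min_eq_left h4] at h3
          rw [max_eq_left (inv_le_one_of_one_le₀ h4), mul_one, lt_inv_comm₀ hlk hp, lt_inv_comm₀ hp hlk,
            ← one_div, lt_div_iff₀ hp]
          linarith
        · rw [min_eq_right h4] at h3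
          rw [max_eq_right ((one_le_inv₀ hp').2 h4), ← div_eq_mul_inv, div_lt_iff₀ hp', inv_mul_eq_div,
            lt_div_iff₀ hp]
          linarith
      · exact inv_le_one_of_one_le₀ (b2 hsk).1
      · have h3 := (b2 hsk).2
        rw [inv_mul_eq_div, lt_div_iff₀ hlk] at h3
        rw [← div_eq_mul_inv, div_lt_iff₀ hp', inv_mul_eq_div, lt_div_iff₀ hp]
        linarith)
    exact ⟨η, hη, a1, fun k => (φ k)⁻¹, fun k => inv_pos.2 (hφ k), by simp only [hφn], Or.inr ⟨a3, a2⟩⟩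

end Pool.Agent.H43.PC
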