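import Mathlib
import Pool.Agent.H43.PC.Loc

/-!
Two fixed points of `x ↦ (α + x ^ P) ^ Q - β` near `0` when `P` and `P * Q` are on different sides of `1`.
-/

set_option autoImplicit false

namespace Pool.Agent.H43.PC

open Set Filter Topology

theorem two_roots_one {P Q : ℝ} (hP : 0 < P) (hP1 : P < 1) (hPQ : 1 < P * Q) {δ : ℝ} (hδ : 0 < δ) :
    ∃ a, 0 < a ∧ a < δ ∧ ∃ E, 0 < E ∧ E < δ ∧ ∃ x y, 0 < x ∧ x < y ∧ y < δ ∧
      (a + x ^ P) ^ Q - E = x ∧ (a + y ^ P) ^ Q - E = y := by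
  have hQ1 : 1 < Q := by
    by_contra hcon
    push Not at hcon
    nlinarith
  have hQ : 0 < Q := by linarith
  -- the outer point
  have ev1 : ∀ᶠ t in 𝓝[>] (0 : ℝ), 2 ^ Q * t ^ (P * Q - 1) < 1 := by
    have h := (tendsto_rpow_zero (p := P * Q - 1) (by linarith)).const_mul ((2 : ℝ) ^ Q)
    rw [mul_zero] at h
    exact h.eventually (gt_mem_nhds one_pos)
  have evδ : ∀ᶠ t in 𝓝[>] (0 : ℝ), t < δ := mem_nhdsWithin_of_mem_nhds (Iio_mem_nhds hδ)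
  obtain ⟨y2, ⟨hy2, hy2δ⟩, hy2pos⟩ := ((ev1.and evδ).and eventually_mem_nhdsWithin).exists
  have hy2pos : 0 < y2 := hy2pos
  have hy2P : 0 < y2 ^ P := Real.rpow_pos_of_pos hy2pos _
  -- the parameter
  have ev2 : ∀ᶠ t in 𝓝[>] (0 : ℝ), t < y2 ^ P := mem_nhdsWithin_of_mem_nhds (Iio_mem_nhds hy2P)
  have ev3 : ∀ᶠ t in 𝓝[>] (0 : ℝ), t ^ Q < δ := (tendsto_rpow_zero hQ).eventually (gt_mem_nhds hδ)
  obtain ⟨a, ⟨⟨ha1, ha2⟩, ha3⟩, hapos⟩ := (((ev2.and ev3).and evδ).and eventually_mem_nhdsWithin).exists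
  have hapos : 0 < a := hapos
  have haQ : 0 < a ^ (Q - 1) := Real.rpow_pos_of_pos hapos _
  -- the inner point
  have ev4 : ∀ᶠ t in 𝓝[>] (0 : ℝ), t ^ (1 - P) < a ^ (Q - 1) :=
    (tendsto_rpow_zero (by linarith)).eventually (gt_mem_nhds haQ)
  have ev5 : ∀ᶠ t in 𝓝[>] (0 : ℝ), t < y2 := mem_nhdsWithin_of_mem_nhds (Iio_mem_nhds hy2pos)
  obtain ⟨y1, ⟨hy1, hy12⟩, hy1pos⟩ := ((ev4.and ev5).and eventually_mem_nhdsWithin).exists
  have hy1pos : 0 < y1 := hy1pos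
  have hgap : a ^ Q + y1 < (a + y1 ^ P) ^ Q := by
    have h1 : y1 < a ^ (Q - 1) * y1 ^ P := by
      have : y1 = y1 ^ (1 - P) * y1 ^ P := by
        rw [← Real.rpow_add hy1pos]
        simp
      calc y1 = y1 ^ (1 - P) * y1 ^ P := this
        _ < a ^ (Q - 1) * y1 ^ P := mul_lt_mul_of_pos_right hy1 (Real.rpow_pos_of_pos hy1pos _)
    have h2 : a ^ Q + a ^ (Q - 1) * y1 ^ P ≤ (a + y1 ^ P) ^ Q := by
      have hv : 0 < y1 ^ P := Real.rpow_pos_of_pos hy1pos _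
      have h3 : (a + y1 ^ P) ^ Q = a ^ Q * (1 + y1 ^ P / a) ^ Q := by
        rw [← Real.mul_rpow hapos.le (by positivity)]
        congr 1
        field_simp
      have h4 : 1 + Q * (y1 ^ P / a) ≤ (1 + y1 ^ P / a) ^ Q :=
        one_add_mul_self_le_rpow_one_add (by have : 0 < y1 ^ P / a := by positivity
                                             linarith) hQ1.le
      have h5 : 1 + y1 ^ P / a ≤ (1 + y1 ^ P / a) ^ Q := by
        have : y1 ^ P / a ≤ Q * (y1 ^ P / a) := le_mul_of_one_le_left (by positivity) hQ1.le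
        linarith
      have h6 : a ^ (Q - 1) * y1 ^ P = a ^ Q * (y1 ^ P / a) := by
        rw [Real.rpow_sub_one hapos.ne']
        ring
      rw [h3, h6]
      calc a ^ Q + a ^ Q * (y1 ^ P / a) = a ^ Q * (1 + y1 ^ P / a) := by ring
        _ ≤ _ := mul_le_mul_of_nonneg_left h5 (Real.rpow_pos_of_pos hapos _).le
    linarith
  obtain ⟨ζ, hζ, hζ1, hζ2⟩ : ∃ ζ : ℝ, 0 < ζ ∧ ζ < (a + y1 ^ P) ^ Q - a ^ Q - y1 ∧ ζ < δ - a ^ Q := by
    obtain ⟨ζ, h1, h2⟩ := exists_between (lt_min (show (0 : ℝ) < (a + y1 ^ P) ^ Q - a ^ Q - y1 by linarith)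
      (show (0 : ℝ) < δ - a ^ Q by linarith))
    exact ⟨ζ, h1, h2.trans_le (min_le_left _ _), h2.trans_le (min_le_right _ _)⟩
  have haQ' : 0 < a ^ Q := Real.rpow_pos_of_pos hapos _
  set F : ℝ → ℝ := fun y => (a + y ^ P) ^ Q - (a ^ Q + ζ) - y with hF
  have hcont : Continuous F := by
    rw [hF]
    have h1 : Continuous fun y : ℝ => y ^ P := Real.continuous_rpow_const hP.le
    have h2 : Continuous fun y : ℝ => (a + y ^ P) ^ Q :=
      (Real.continuous_rpow_const hQ.le).comp (continuous_const.add h1)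
    exact (h2.sub continuous_const).sub continuous_id
  have f0 : F 0 < 0 := by
    have : F 0 = -ζ := by
      simp only [hF]
      rw [Real.zero_rpow hP.ne', add_zero]
      ring
    rw [this]; linarith
  have f1 : 0 < F y1 := by
    simp only [hF]
    linarith
  have f2 : F y2 < 0 := by
    have h1 : (a + y2 ^ P) ^ Q ≤ (2 * y2 ^ P) ^ Q :=
      Real.rpow_le_rpow (by positivity) (by linarith) hQ.le
    have h2 : (2 * y2 ^ P) ^ Q < y2 := by
      rw [Real.mul_rpow (by norm_num) hy2P.le, ← Real.rpow_mul hy2pos.le]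
      have : y2 ^ (P * Q) = y2 ^ (P * Q - 1) * y2 := by
        rw [← Real.rpow_add_one hy2pos.ne']
        congr 1
        ring
      rw [this, ← mul_assoc]
      exact mul_lt_of_lt_one_left hy2pos hy2
    simp only [hF]
    linarith
  obtain ⟨x, hx, hx0⟩ := intermediate_value_Ioo hy1pos.le hcont.continuousOn
    (show (0 : ℝ) ∈ Ioo (F 0) (F y1) from ⟨f0, f1⟩)
  obtain ⟨y, hy, hy0⟩ := intermediate_value_Ioo' hy12.le hcont.continuousOn
    (show (0 : ℝ) ∈ Ioo (F y2) (F y1) from ⟨f2, f1⟩)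
  refine ⟨a, hapos, ha3, a ^ Q + ζ, by linarith, by linarith, x, y, hx.1, hx.2.trans hy.1, hy.2.trans hy2δ, ?_, ?_⟩
  · simp only [hF] at hx0
    linarith
  · simp only [hF] at hy0
    linarith

theorem two_roots {P Q : ℝ} (hP : 0 < P) (hQ : 0 < Q) (h : (1 < P * Q ∧ P < 1) ∨ (P * Q < 1 ∧ 1 < P))
    {δ : ℝ} (hδ : 0 < δ) :
    ∃ α, 0 < α ∧ α < δ ∧ ∃ β, 0 < β ∧ β < δ ∧ ∃ x y, 0 < x ∧ x < y ∧ y < δ ∧
      (α + x ^ P) ^ Q - β = x ∧ (α + y ^ P) ^ Q - β = y := by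
  rcases h with ⟨h1, h2⟩ | ⟨h1, h2⟩
  · exact two_roots_one hP h2 h1 hδ
  · have hPi : 0 < P⁻¹ := by positivity
    have hQi : 0 < Q⁻¹ := by positivity
    have h3 : P⁻¹ < 1 := inv_lt_one_of_one_lt₀ h2
    have h4 : 1 < P⁻¹ * Q⁻¹ := by
      rw [← mul_inv]
      exact (one_lt_inv₀ (by positivity)).2 h1
    obtain ⟨a, ha, haδ, E, hE, hEδ, x, y, hx, hxy, hy, hx0, hy0⟩ :=
      two_roots_one hPi h3 h4 (δ := min δ (δ ^ P)) (lt_min hδ (Real.rpow_pos_of_pos hδ _))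
    have key : ∀ w : ℝ, 0 < w → (a + w ^ P⁻¹) ^ Q⁻¹ - E = w →
        (E + (w ^ P⁻¹) ^ P) ^ Q - a = w ^ P⁻¹ := by
      intro w hw h
      have hwP : 0 < w ^ P⁻¹ := Real.rpow_pos_of_pos hw _
      rw [← Real.rpow_mul hw.le, inv_mul_cancel₀ hP.ne', Real.rpow_one]
      have : E + w = (a + w ^ P⁻¹) ^ Q⁻¹ := by linarith
      rw [this, ← Real.rpow_mul (by positivity), inv_mul_cancel₀ hQ.ne', Real.rpow_one]
      ring
    refine ⟨E, hE, hEδ.trans_le (min_le_left _ _), a, ha, haδ.trans_le (min_le_left _ _), x ^ P⁻¹, y ^ P⁻¹,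
      Real.rpow_pos_of_pos hx _, Real.rpow_lt_rpow hx.le hxy hPi, ?_, key x hx hx0, key y (hx.trans hxy) hy0⟩
    have h5 : y < δ ^ P := hy.trans_le (min_le_right _ _)
    calc y ^ P⁻¹ < (δ ^ P) ^ P⁻¹ := Real.rpow_lt_rpow (hx.trans hxy).le h5 hPi
      _ = δ := by rw [← Real.rpow_mul hδ.le, mul_inv_cancel₀ hP.ne', Real.rpow_one]

end Pool.Agent.H43.PC
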