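import Mathlib
import Pool.Agent.H43.PC.Roots
import Pool.Agent.H43.PC.Eta

/-!
The product condition is necessary: two fixed points arbitrarily near the polycycle whenever a product of consecutive
exponents from a connection with sign `-` to a later connection with sign `+` and the product of all exponents are on
different sides of `1`.
-/

set_option autoImplicit false

namespace Pool.Agent.H43.PC

open Set Filter Topology

theorem orb_add (e : ℕ → ℝ) (g : ℕ → ℝ → ℝ) (p j : ℕ) (x : ℝ) :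
    orb e g (p + j) x = orb (fun k => e (p + k)) (fun k => g (p + k)) j (orb e g p x) := by
  induction j with
  | zero => rfl
  | succ j ih =>
    change e (p + j) + g (p + j) (orb e g (p + j) x) = _
    rw [ih]
    rfl

theorem orb_zero (l e : ℕ → ℝ) {x : ℝ} (hx : 0 < x) (m : ℕ) (h : ∀ k < m, e k = 0) :
    orb e (fun k t => t ^ l k) m x = x ^ ∏ j ∈ Finset.range m, l j := by
  induction m with
  | zero => simp [orb]
  | succ m ih =>
    change e m + (orb e (fun k t => t ^ l k) m x) ^ l m = _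
    rw [ih fun k hk => h k (by omega), h m (by omega), Finset.prod_range_succ, Real.rpow_mul hx.le, zero_add]

theorem orb_last (l e : ℕ → ℝ) {x : ℝ} (hx : 0 < x) (m : ℕ) (h : ∀ k < m, e k = 0) :
    orb e (fun k t => t ^ l k) (m + 1) x = e m + x ^ ∏ j ∈ Finset.range (m + 1), l j := by
  change e m + (orb e (fun k t => t ^ l k) m x) ^ l m = _
  rw [orb_zero l e hx m h, Finset.prod_range_succ, Real.rpow_mul hx.le]

/-- all iterated powers are small -/
theorem small_powers {m : ℕ → ℝ} (hm : ∀ k, 0 < m k) (n : ℕ) {δ : ℝ} (hδ : 0 < δ) :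
    ∃ δ1, 0 < δ1 ∧ δ1 ≤ δ ∧ ∀ t, 0 < t → t < δ1 → ∀ j ≤ n, t ^ (∏ i ∈ Finset.range j, m i) < δ := by
  have ev : ∀ᶠ t in 𝓝[>] (0 : ℝ), ∀ j ∈ Finset.range (n + 1), t ^ (∏ i ∈ Finset.range j, m i) < δ := by
    rw [Filter.eventually_all_finset]
    intro j _
    exact (tendsto_rpow_zero (Finset.prod_pos fun i _ => hm i)).eventually (gt_mem_nhds hδ)
  obtain ⟨u, hu, hsub⟩ := mem_nhdsGT_iff_exists_Ioo_subset.1 ev
  refine ⟨min u δ, lt_min hu hδ, min_le_right _ _, fun t ht ht1 j hj => ?_⟩
  exact hsub ⟨ht, ht1.trans_le (min_le_left _ _)⟩ j (Finset.mem_range.2 (by omega))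

section rot
variable {n : ℕ} {d : ℝ} {e : ℕ → ℝ} {g : ℕ → ℝ → ℝ}

theorem orb_period (he : ∀ k, e (k + n) = e k) (hg : ∀ k, g (k + n) = g k) {y : ℝ} (h : orb e g n y = y) (j : ℕ) :
    orb e g (j + n) y = orb e g j y := by
  induction j with
  | zero => rw [zero_add]; exact h
  | succ j ih =>
    rw [show j + 1 + n = (j + n) + 1 from by omega]
    change e (j + n) + g (j + n) (orb e g (j + n) y) = e j + g j (orb e g j y)
    rw [ih, he, hg]

theorem orb_period_mul (he : ∀ k, e (k + n) = e k) (hg : ∀ k, g (k + n) = g k) {y : ℝ} (h : orb e g n y = y)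
    (j m : ℕ) : orb e g (j + n * m) y = orb e g j y := by
  induction m with
  | zero => simp
  | succ m ih => rw [Nat.mul_succ, ← add_assoc, orb_period he hg h, ih]

theorem seq_period {α : Type*} {u : ℕ → α} (hu : ∀ k, u (k + n) = u k) (k m : ℕ) : u (k + n * m) = u k := by
  induction m with
  | zero => simp
  | succ m ih => rw [Nat.mul_succ, ← add_assoc, hu, ih]

/-- A fixed point seen from connection `r` gives a fixed point seen from connection `0`. -/
theorem rotate (hn : 1 ≤ n) (he : ∀ k, e (k + n) = e k) (hg : ∀ k, g (k + n) = g k) (r : ℕ) {y : ℝ}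
    (h : IsCycle d (fun k => e (r + k)) (fun k => g (r + k)) n y) :
    IsCycle d e g n (orb (fun k => e (r + k)) (fun k => g (r + k)) (r * (n - 1)) y) := by
  set e' : ℕ → ℝ := fun k => e (r + k) with he'
  set g' : ℕ → ℝ → ℝ := fun k => g (r + k) with hg'
  have hpe : ∀ k, e' (k + n) = e' k := fun k => by
    simp only [he']; rw [← add_assoc, he]
  have hpg : ∀ k, g' (k + n) = g' k := fun k => by
    simp only [hg']; rw [← add_assoc, hg]
  have hpos : ∀ j, orb e' g' j y ∈ Ioo 0 d := by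
    intro j
    have := orb_period_mul hpe hpg h.2 (j % n) (j / n)
    rw [Nat.mod_add_div] at this
    rw [this]
    exact h.1 _ (Nat.mod_lt _ hn)
  have hr : ∀ k, r + (r * (n - 1) + k) = k + n * r := by
    intro k
    obtain ⟨m, rfl⟩ : ∃ m, n = m + 1 := ⟨n - 1, by omega⟩
    rw [Nat.add_sub_cancel]
    ring
  have key : ∀ k, orb e g k (orb e' g' (r * (n - 1)) y) = orb e' g' (r * (n - 1) + k) y := by
    intro k
    induction k with
    | zero => rfl
    | succ k ih =>
      change e k + g k (orb e g k (orb e' g' (r * (n - 1)) y)) =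
        e' (r * (n - 1) + k) + g' (r * (n - 1) + k) (orb e' g' (r * (n - 1) + k) y)
      have h1 : e' (r * (n - 1) + k) = e k := by
        simp only [he']; rw [hr, seq_period he]
      have h2 : g' (r * (n - 1) + k) = g k := by
        simp only [hg']; rw [hr, seq_period hg]
      rw [ih, h1, h2]
  refine ⟨fun k _ => ?_, ?_⟩
  · rw [key]; exact hpos _
  · rw [key, orb_period hpe hpg h.2]

end rot

theorem orb_strict {l : ℕ → ℝ} (hl : ∀ k, 0 < l k) (e : ℕ → ℝ) {x y : ℝ}
    (hpos : ∀ j, 0 < orb e (fun k t => t ^ l k) j x) (hxy : x < y) (j : ℕ) :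
    orb e (fun k t => t ^ l k) j x < orb e (fun k t => t ^ l k) j y := by
  induction j with
  | zero => exact hxy
  | succ j ih =>
    change e j + (orb e (fun k t => t ^ l k) j x) ^ l j < e j + (orb e (fun k t => t ^ l k) j y) ^ l j
    have := Real.rpow_lt_rpow (hpos j).le ih (hl j)
    linarith

variable {n : ℕ} {l : ℕ → ℝ} {s : ℕ → Prop}

theorem s_mod (hs : ∀ k, s (k + n) ↔ s k) (k : ℕ) : s k ↔ s (k % n) := by
  have h : ∀ m j, s (j + n * m) ↔ s j := by
    intro m
    induction m with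
    | zero => simp
    | succ m ih => intro j; rw [Nat.mul_succ, ← add_assoc, hs, ih]
  conv_lhs => rw [← Nat.mod_add_div k n]
  exact h _ _

theorem sharp (hn : 1 ≤ n) (hl : ∀ k, 0 < l k) (hper : ∀ k, l (k + n) = l k) (hs : ∀ k, s (k + n) ↔ s k)
    {a b : ℕ} (hab : a < b) (hbn : b ≤ a + n) (ha : ¬ s a) (hb : s b)
    (h : (1 < ∏ j ∈ Finset.range n, l j ∧ ∏ j ∈ Finset.Ico (a + 1) (b + 1), l j < 1) ∨
      (∏ j ∈ Finset.range n, l j < 1 ∧ 1 < ∏ j ∈ Finset.Ico (a + 1) (b + 1), l j))
    {δ : ℝ} (hδ : 0 < δ) :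
    ∃ e : ℕ → ℝ, Signs s n e ∧ (∀ k < n, |e k| < δ) ∧
      ∃ x y, x < y ∧ IsCycle δ e (fun k t => t ^ l k) n x ∧ IsCycle δ e (fun k t => t ^ l k) n y := by
  have hbn' : b < a + n := by
    rcases hbn.lt_or_eq with h1 | h1
    · exact h1
    · exfalso
      rw [h1, hs] at hb
      exact ha hb
  obtain ⟨p, rfl⟩ : ∃ p, b = a + 1 + p := ⟨b - (a + 1), by omega⟩
  obtain ⟨q, rfl⟩ : ∃ q, n = p + 1 + (q + 1) := ⟨n - p - 2, by omega⟩
  set n := p + 1 + (q + 1) with hn'
  set l1 : ℕ → ℝ := fun k => l (a + 1 + k) with hl1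
  set l2 : ℕ → ℝ := fun k => l1 (p + 1 + k) with hl2
  have hl1p : ∀ k, 0 < l1 k := fun k => hl _
  have hl2p : ∀ k, 0 < l2 k := fun k => hl _
  set P := ∏ j ∈ Finset.range (p + 1), l1 j with hP
  set Q := ∏ j ∈ Finset.range (q + 1), l2 j with hQ
  have hPpos : 0 < P := Finset.prod_pos fun i _ => hl1p i
  have hQpos : 0 < Q := Finset.prod_pos fun i _ => hl2p i
  have hPeq : ∏ j ∈ Finset.Ico (a + 1) (a + 1 + p + 1), l j = P := by
    rw [hP, Finset.prod_Ico_eq_prod_range, show a + 1 + p + 1 - (a + 1) = p + 1 from by omega]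
  have hPQ : ∏ j ∈ Finset.range n, l j = P * Q := by
    rw [← prod_period hl hper (a + 1), Finset.prod_Ico_eq_prod_range, Nat.add_sub_cancel_left, hn',
      Finset.prod_range_add]
  rw [hPeq, hPQ] at h
  -- small numbers
  obtain ⟨δ1, hδ1, hδ1δ, hsm1⟩ := small_powers hl2p (q + 1) hδ
  obtain ⟨δ2, hδ2, hδ2δ, hsm2⟩ := small_powers hl1p (p + 1) (δ := δ1 / 2) (by positivity)
  obtain ⟨α, hα, hα2, β, hβ, hβ2, x, y, hx, hxy, hy, hx0, hy0⟩ := two_roots hPpos hQpos h hδ2
  have hy' : 0 < y := hx.trans hxy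
  set r := a + 1 with hr
  set e : ℕ → ℝ := fun k => if k % n = (r + p) % n then α else if k % n = a % n then -β else 0 with he
  have hper_e : ∀ k, e (k + n) = e k := fun k => by simp only [he, Nat.add_mod_right]
  have hper_g : ∀ k, (fun (k : ℕ) (t : ℝ) => t ^ l k) (k + n) = (fun (k : ℕ) (t : ℝ) => t ^ l k) k := fun k => by
    funext t; simp only [hper]
  have hmod : ∀ i < n, ∀ j < n, (r + i) % n = (r + j) % n → i = j := by
    intro i hi j hj hij
    have h1 : i ≡ j [MOD n] := Nat.ModEq.add_left_cancel' r hij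
    rwa [Nat.ModEq, Nat.mod_eq_of_lt hi, Nat.mod_eq_of_lt hj] at h1
  have hamod : a % n = (r + (n - 1)) % n := by
    rw [hr, show a + 1 + (n - 1) = a + n from by omega, Nat.add_mod_right]
  set e1 : ℕ → ℝ := fun k => e (r + k) with he1
  have e1p : e1 p = α := by simp only [he1, he, if_true]
  have e1last : e1 (n - 1) = -β := by
    simp only [he1, he]
    rw [if_neg, if_pos hamod.symm]
    intro hcon
    have := hmod (n - 1) (by omega) p (by omega) hcon
    omega
  have e1zero : ∀ k < n, k ≠ p → k ≠ n - 1 → e1 k = 0 := by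
    intro k hk h1 h2
    simp only [he1, he]
    rw [if_neg, if_neg]
    · intro hcon
      rw [hamod] at hcon
      exact h2 (hmod k hk (n - 1) (by omega) hcon)
    · intro hcon
      exact h1 (hmod k hk p (by omega) hcon)
  -- the orbit from connection `a`
  set g : ℕ → ℝ → ℝ := fun k t => t ^ l k with hg
  have hg1 : (fun k => g (r + k)) = fun (k : ℕ) (t : ℝ) => t ^ l1 k := rfl
  have hcyc : ∀ z, 0 < z → z < δ2 → (α + z ^ P) ^ Q - β = z →
      IsCycle δ e1 (fun (k : ℕ) (t : ℝ) => t ^ l1 k) n z := by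
    intro z hz hzδ hzeq
    have hzP : 0 < z ^ P := Real.rpow_pos_of_pos hz _
    have horb1 : ∀ k ≤ p, orb e1 (fun k t => t ^ l1 k) k z = z ^ ∏ j ∈ Finset.range k, l1 j := fun k hk =>
      orb_zero l1 e1 hz k fun j hj => e1zero j (by omega) (by omega) (by omega)
    have horb2 : orb e1 (fun k t => t ^ l1 k) (p + 1) z = α + z ^ P := by
      rw [orb_last l1 e1 hz p fun j hj => e1zero j (by omega) (by omega) (by omega), e1p]
    have hw : 0 < α + z ^ P := by linarith
    have hw1 : α + z ^ P < δ1 := by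
      have h1 := hsm2 z hz hzδ (p + 1) le_rfl
      have h2 := hδ2δ
      have h3 : z ^ P < δ1 / 2 := h1
      linarith
    have horb3 : ∀ k ≤ q, orb e1 (fun k t => t ^ l1 k) (p + 1 + k) z =
        (α + z ^ P) ^ ∏ j ∈ Finset.range k, l2 j := by
      intro k hk
      rw [orb_add, horb2]
      exact orb_zero l2 (fun k => e1 (p + 1 + k)) hw k fun j hj => e1zero _ (by omega) (by omega) (by omega)
    have horb4 : orb e1 (fun k t => t ^ l1 k) n z = z := by
      rw [hn', orb_add, horb2]
      have h1 := orb_last l2 (fun k => e1 (p + 1 + k)) hw q fun j hj => e1zero _ (by omega) (by omega) (by omega)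
      have h2 : e1 (p + 1 + q) = -β := by rw [← e1last]; congr 1
      rw [h2] at h1
      have h3 : orb (fun k => e1 (p + 1 + k)) (fun k t => t ^ l1 (p + 1 + k)) (q + 1) (α + z ^ P) =
        -β + (α + z ^ P) ^ Q := h1
      rw [h3]
      linarith
    refine ⟨fun k hk => ?_, horb4⟩
    rcases Nat.lt_or_ge k (p + 1) with h1 | h1
    · rw [horb1 k (by omega)]
      refine ⟨Real.rpow_pos_of_pos hz _, ?_⟩
      have := hsm2 z hz hzδ k (by omega)
      linarith
    · obtain ⟨j, rfl⟩ : ∃ j, k = p + 1 + j := ⟨k - (p + 1), by omega⟩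
      rw [horb3 j (by omega)]
      exact ⟨Real.rpow_pos_of_pos hw _, hsm1 _ hw hw1 j (by omega)⟩
  have hcx := hcyc x hx (hxy.trans hy) hx0
  have hcy := hcyc y hy' hy hy0
  have hrx := rotate (d := δ) (e := e) (g := g) hn hper_e hper_g r (y := x) hcx
  have hry := rotate (d := δ) (e := e) (g := g) hn hper_e hper_g r (y := y) hcy
  refine ⟨e, ?_, ?_, _, _, ?_, hrx, hry⟩
  · intro k hk
    have hsb : s (r + p) := hb
    refine ⟨fun h1 => ?_, fun h1 => ?_⟩
    · simp only [he]
      split_ifs with h2 h3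
      · exact hα.le
      · exfalso
        rw [s_mod hs, h3, ← s_mod hs] at h1
        exact ha h1
      · exact le_rfl
    · simp only [he]
      split_ifs with h2 h3
      · exfalso
        rw [s_mod hs, h2, ← s_mod hs] at h1
        exact h1 hsb
      · linarith
      · exact le_rfl
  · intro k hk
    simp only [he]
    split_ifs with h2 h3
    · rw [abs_of_pos hα]; linarith
    · rw [abs_neg, abs_of_pos hβ]; linarith
    · simpa using hδ
  · have hp1 : ∀ k, l1 (k + n) = l1 k := fun k => by simp only [hl1]; rw [← add_assoc, hper]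
    have hpe1 : ∀ k, e1 (k + n) = e1 k := fun k => by simp only [he1]; rw [← add_assoc, hper_e]
    have hpg1 : ∀ k, (fun (k : ℕ) (t : ℝ) => t ^ l1 k) (k + n) = (fun (k : ℕ) (t : ℝ) => t ^ l1 k) k := fun k => by
      funext t; simp only [hp1]
    refine orb_strict hl1p e1 (fun j => ?_) hxy (r * (n - 1))
    have := orb_period_mul hpe1 hpg1 hcx.2 (j % n) (j / n)
    rw [Nat.mod_add_div] at this
    rw [this]
    exact (hcx.1 _ (Nat.mod_lt _ hn)).1

end Pool.Agent.H43.PC
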