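import Mathlib

/-!
Two solutions of `B (α + A y) - β = y` near `0`, by sign tests.
-/

set_option autoImplicit false

namespace Pool.Agent.H43.PC

open Set Filter Topology

/-- `A` is continuous, positive and nondecreasing on `(0,ρ)` and tends to `0` at `0`. -/
structure Small (ρ : ℝ) (A : ℝ → ℝ) : Prop where
  pos : ∀ y ∈ Ioo 0 ρ, 0 < A y
  cont : ∀ y ∈ Ioo 0 ρ, ContinuousAt A y
  mono : ∀ x ∈ Ioo 0 ρ, ∀ y ∈ Ioo 0 ρ, x ≤ y → A x ≤ A y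
  lim : Tendsto A (𝓝[>] 0) (𝓝 0)

theorem ev_lt {δ : ℝ} (hδ : 0 < δ) : ∀ᶠ t in 𝓝[>] (0 : ℝ), t < δ := mem_nhdsWithin_of_mem_nhds (Iio_mem_nhds hδ)

theorem Small.ev {ρ : ℝ} {A : ℝ → ℝ} (hA : Small ρ A) {δ : ℝ} (hδ : 0 < δ) : ∀ᶠ t in 𝓝[>] (0 : ℝ), A t < δ :=
  hA.lim.eventually (gt_mem_nhds hδ)

/-- linear bounds from a positive derivative -/
theorem lin_bounds {B : ℝ → ℝ} {α m : ℝ} (hm : 0 < m) (h : HasDerivAt B m α) :
    ∀ᶠ v in 𝓝[>] (0 : ℝ), B α + m / 2 * v < B (α + v) ∧ B (α + v) < B α + 2 * m * v := by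
  have h1 : HasDerivAt (fun v => B (α + v)) m 0 := by
    have h2 : HasDerivAt B m (α + 0) := by simpa using h
    simpa using h2.comp_const_add α 0
  have h3 := (hasDerivAt_iff_tendsto_slope.1 h1).mono_left
    (nhdsWithin_mono (0 : ℝ) (fun x hx => (ne_of_gt hx : x ≠ 0)) : 𝓝[>] (0 : ℝ) ≤ 𝓝[≠] 0)
  filter_upwards [h3.eventually (lt_mem_nhds (show m / 2 < m by linarith)),
    h3.eventually (gt_mem_nhds (show m < 2 * m by linarith)), eventually_mem_nhdsWithin] with v h4 h5 h6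
  have hv : (0 : ℝ) < v := h6
  have e : slope (fun v => B (α + v)) 0 v = (B (α + v) - B α) / v := by
    rw [slope_def_field]; simp
  rw [e, lt_div_iff₀ hv] at h4
  rw [e, div_lt_iff₀ hv] at h5
  exact ⟨by linarith, by linarith⟩

theorem ivt2 {F : ℝ → ℝ} {y0 y1 y2 : ℝ} (h01 : y0 < y1) (h12 : y1 < y2) (hF : ContinuousOn F (Icc y0 y2))
    (h : (F y0 < 0 ∧ 0 < F y1 ∧ F y2 < 0) ∨ (0 < F y0 ∧ F y1 < 0 ∧ 0 < F y2)) :
    ∃ x y, y0 < x ∧ x < y ∧ y < y2 ∧ F x = 0 ∧ F y = 0 := by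
  have c1 : ContinuousOn F (Icc y0 y1) := hF.mono (Icc_subset_Icc le_rfl h12.le)
  have c2 : ContinuousOn F (Icc y1 y2) := hF.mono (Icc_subset_Icc h01.le le_rfl)
  rcases h with ⟨f0, f1, f2⟩ | ⟨f0, f1, f2⟩
  · obtain ⟨x, hx, hx0⟩ := intermediate_value_Ioo h01.le c1 (show (0 : ℝ) ∈ Ioo (F y0) (F y1) from ⟨f0, f1⟩)
    obtain ⟨y, hy, hy0⟩ := intermediate_value_Ioo' h12.le c2 (show (0 : ℝ) ∈ Ioo (F y2) (F y1) from ⟨f2, f1⟩)
    exact ⟨x, y, hx.1, hx.2.trans hy.1, hy.2, hx0, hy0⟩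
  · obtain ⟨x, hx, hx0⟩ := intermediate_value_Ioo' h01.le c1 (show (0 : ℝ) ∈ Ioo (F y1) (F y0) from ⟨f1, f0⟩)
    obtain ⟨y, hy, hy0⟩ := intermediate_value_Ioo h12.le c2 (show (0 : ℝ) ∈ Ioo (F y1) (F y2) from ⟨f1, f2⟩)
    exact ⟨x, y, hx.1, hx.2.trans hy.1, hy.2, hx0, hy0⟩

theorem cont_F {ρ σ α β y0 y2 : ℝ} {A B : ℝ → ℝ} (hA : Small ρ A) (hB : Small σ B) (hy0 : 0 < y0) (hy2 : y2 < ρ)
    (hα : 0 < α) (hs : α + A y2 < σ) (h02 : y0 < y2) :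
    ContinuousOn (fun y => B (α + A y) - β - y) (Icc y0 y2) := by
  intro y hy
  have hyρ : y ∈ Ioo 0 ρ := ⟨hy0.trans_le hy.1, hy.2.trans_lt hy2⟩
  have hAy := hA.pos y hyρ
  have hAle : A y ≤ A y2 := hA.mono y hyρ y2 ⟨hy0.trans h02, hy2⟩ hy.2
  have h1 : ContinuousAt (fun y => α + A y) y := continuousAt_const.add (hA.cont y hyρ)
  have h2 : ContinuousAt B (α + A y) := hB.cont _ ⟨by linarith, by linarith⟩
  have h3 : ContinuousAt (fun y => B (α + A y)) y := ContinuousAt.comp (f := fun y => α + A y) h2 h1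
  exact ((h3.sub continuousAt_const).sub continuousAt_id).continuousWithinAt

theorem two_abs {ρ σ : ℝ} (hρ : 0 < ρ) (hσ : 0 < σ) {A B : ℝ → ℝ} (hA : Small ρ A) (hB : Small σ B)
    (hBd : ∀ x ∈ Ioo 0 σ, ∃ m, 0 < m ∧ HasDerivAt B m x)
    (h : ((∀ M > 0, ∀ᶠ y in 𝓝[>] (0 : ℝ), M * y < A y) ∧ ∀ᶠ y in 𝓝[>] (0 : ℝ), B (2 * A y) < y) ∨
      ((∀ M > 0, ∀ᶠ y in 𝓝[>] (0 : ℝ), A y < M * y) ∧ ∀ᶠ y in 𝓝[>] (0 : ℝ), 2 * y < B (A y)))
    {δ : ℝ} (hδ : 0 < δ) :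
    ∃ α, 0 < α ∧ α < δ ∧ ∃ β, 0 < β ∧ β < δ ∧ ∃ x y, 0 < x ∧ x < y ∧ y < δ ∧ y < ρ ∧ α + A x < σ ∧ α + A y < σ ∧
      B (α + A x) - β = x ∧ B (α + A y) - β = y := by
  rcases h with ⟨h1, h2⟩ | ⟨h1, h2⟩
  · obtain ⟨y2, ⟨⟨⟨hy2, hy2δ⟩, hy2ρ⟩, hy2A⟩, hy2pos⟩ :=
      ((((h2.and (ev_lt hδ)).and (ev_lt hρ)).and (hA.ev (show 0 < σ / 2 by positivity))).and
        eventually_mem_nhdsWithin).exists
    have hy2pos : 0 < y2 := hy2pos
    have hA2 : 0 < A y2 := hA.pos y2 ⟨hy2pos, hy2ρ⟩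
    obtain ⟨α, ⟨⟨⟨hα1, hα2⟩, hα3⟩, hα4⟩, hα⟩ :=
      ((((ev_lt hA2).and (hB.ev hδ)).and (ev_lt hδ)).and (ev_lt hσ)).and eventually_mem_nhdsWithin |>.exists
    have hα : 0 < α := hα
    obtain ⟨m, hm, hder⟩ := hBd α ⟨hα, hα4⟩
    have hBα : 0 < B α := hB.pos α ⟨hα, hα4⟩
    have hlin := lin_bounds hm hder
    obtain ⟨v0, hv0, hsub⟩ := mem_nhdsGT_iff_exists_Ioo_subset.1 hlin
    have hv0 : 0 < v0 := hv0
    obtain ⟨y1, ⟨⟨hy1, hy1A⟩, hy12⟩, hy1pos⟩ :=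
      (((h1 (4 / m) (by positivity)).and (hA.ev hv0)).and (ev_lt hy2pos)).and eventually_mem_nhdsWithin |>.exists
    have hy1pos : 0 < y1 := hy1pos
    have hA1 : 0 < A y1 := hA.pos y1 ⟨hy1pos, hy12.trans hy2ρ⟩
    have hB1 : B α + 2 * y1 < B (α + A y1) := by
      have h3 := (hsub ⟨hA1, hy1A⟩).1
      have h4 : m / 2 * (4 / m * y1) < m / 2 * A y1 := mul_lt_mul_of_pos_left hy1 (by positivity)
      have h5 : m / 2 * (4 / m * y1) = 2 * y1 := by field_simp; ring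
      linarith
    obtain ⟨ζ, hζ, hζ1⟩ := exists_between (lt_min hy1pos (show (0 : ℝ) < δ - B α by linarith))
    have hζ2 := hζ1.trans_le (min_le_left _ _)
    have hζ3 := hζ1.trans_le (min_le_right _ _)
    -- a point near zero
    have hBc : Tendsto (fun y => B (α + A y)) (𝓝[>] 0) (𝓝 (B α)) := by
      have h3 : Tendsto (fun y => α + A y) (𝓝[>] 0) (𝓝 α) := by simpa using hA.lim.const_add α
      exact (hB.cont α ⟨hα, hα4⟩).tendsto.comp h3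
    obtain ⟨y0, ⟨hy0, hy01⟩, hy0pos⟩ :=
      (((hBc.eventually (gt_mem_nhds (show B α < B α + ζ by linarith))).and (ev_lt hy1pos)).and
        eventually_mem_nhdsWithin).exists
    have hy0pos : 0 < y0 := hy0pos
    have hs : α + A y2 < σ := by linarith
    obtain ⟨x, y, hx, hxy, hy, hx0, hy0'⟩ := ivt2 hy01 hy12
      (cont_F (β := B α + ζ) hA hB hy0pos hy2ρ hα hs (hy01.trans hy12)) (Or.inl ⟨by linarith, by linarith, by
        have h3 : B (α + A y2) ≤ B (2 * A y2) :=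
          hB.mono _ ⟨by linarith, hs⟩ _ ⟨by linarith, by linarith⟩ (by linarith)
        linarith⟩)
    have hyρ : y < ρ := hy.trans hy2ρ
    have hypos : 0 < y := by linarith
    have hAy : A y ≤ A y2 := hA.mono y ⟨hypos, hyρ⟩ y2 ⟨hy2pos, hy2ρ⟩ hy.le
    have hAx : A x ≤ A y2 := hA.mono x ⟨by linarith, by linarith⟩ y2 ⟨hy2pos, hy2ρ⟩ (by linarith)
    exact ⟨α, hα, hα3, B α + ζ, by linarith, by linarith, x, y, by linarith, hxy, by linarith, hyρ, by linarith,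
      by linarith, by linarith, by linarith⟩
  · obtain ⟨y2, ⟨⟨⟨hy2, hy2δ⟩, hy2ρ⟩, hy2A⟩, hy2pos⟩ :=
      ((((h2.and (ev_lt hδ)).and (ev_lt hρ)).and (hA.ev (show 0 < σ / 2 by positivity))).and
        eventually_mem_nhdsWithin).exists
    have hy2pos : 0 < y2 := hy2pos
    have hA2 : 0 < A y2 := hA.pos y2 ⟨hy2pos, hy2ρ⟩
    obtain ⟨α, ⟨⟨⟨hα1, hα2⟩, hα3⟩, hα4⟩, hα⟩ :=
      ((((hB.ev hy2pos).and (hB.ev hδ)).and (ev_lt hδ)).and (ev_lt (show 0 < σ / 2 by positivity))).and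
        eventually_mem_nhdsWithin |>.exists
    have hα : 0 < α := hα
    have hασ : α < σ := by linarith
    obtain ⟨m, hm, hder⟩ := hBd α ⟨hα, hασ⟩
    have hBα : 0 < B α := hB.pos α ⟨hα, hασ⟩
    have hlin := lin_bounds hm hder
    obtain ⟨v0, hv0, hsub⟩ := mem_nhdsGT_iff_exists_Ioo_subset.1 hlin
    have hv0 : 0 < v0 := hv0
    obtain ⟨y1, ⟨⟨hy1, hy1A⟩, hy12⟩, hy1pos⟩ :=
      (((h1 (1 / (4 * m)) (by positivity)).and (hA.ev hv0)).and (ev_lt hy2pos)).and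
        eventually_mem_nhdsWithin |>.exists
    have hy1pos : 0 < y1 := hy1pos
    have hA1 : 0 < A y1 := hA.pos y1 ⟨hy1pos, hy12.trans hy2ρ⟩
    have hB1 : B (α + A y1) < B α + y1 / 2 := by
      have h3 := (hsub ⟨hA1, hy1A⟩).2
      have h4 : 2 * m * A y1 < 2 * m * (1 / (4 * m) * y1) := mul_lt_mul_of_pos_left hy1 (by positivity)
      have h5 : 2 * m * (1 / (4 * m) * y1) = y1 / 2 := by field_simp; ring
      linarith
    obtain ⟨ζ, hζ, hζ1⟩ := exists_between (lt_min (show (0 : ℝ) < y1 / 2 by linarith) hBα)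
    have hζ2 := hζ1.trans_le (min_le_left _ _)
    have hζ3 := hζ1.trans_le (min_le_right _ _)
    obtain ⟨y0, hy0pos, hy0⟩ := exists_between (lt_min hζ hy1pos)
    have hy0ζ := hy0.trans_le (min_le_left _ _)
    have hy01 := hy0.trans_le (min_le_right _ _)
    have hs : α + A y2 < σ := by linarith
    have hA0 : 0 < A y0 := hA.pos y0 ⟨hy0pos, by linarith⟩
    have hA02 : A y0 ≤ A y2 := hA.mono y0 ⟨hy0pos, by linarith⟩ y2 ⟨hy2pos, hy2ρ⟩ (by linarith)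
    obtain ⟨x, y, hx, hxy, hy, hx0, hy0'⟩ := ivt2 hy01 hy12
      (cont_F (β := B α - ζ) hA hB hy0pos hy2ρ hα hs (hy01.trans hy12)) (Or.inr ⟨by
        have h3 : B α ≤ B (α + A y0) := hB.mono _ ⟨hα, hασ⟩ _ ⟨by linarith, by linarith⟩ (by linarith)
        linarith, by linarith, by
        have h3 : B (A y2) ≤ B (α + A y2) :=
          hB.mono _ ⟨by linarith, by linarith⟩ _ ⟨by linarith, hs⟩ (by linarith)
        linarith⟩)
    have hyρ : y < ρ := hy.trans hy2ρ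
    have hypos : 0 < y := by linarith
    have hAy : A y ≤ A y2 := hA.mono y ⟨hypos, hyρ⟩ y2 ⟨hy2pos, hy2ρ⟩ hy.le
    have hAx : A x ≤ A y2 := hA.mono x ⟨by linarith, by linarith⟩ y2 ⟨hy2pos, hy2ρ⟩ (by linarith)
    exact ⟨α, hα, hα3, B α - ζ, by linarith, by linarith, x, y, by linarith, hxy, by linarith, hyρ, by linarith,
      by linarith, by linarith, by linarith⟩

end Pool.Agent.H43.PC
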