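import Mathlib
import Pool.Agent.H43.PC.Sharp
import Pool.Agent.H43.PC.TwoAbs

/-!
The product condition is necessary for every polycycle of the class: two fixed points arbitrarily near.
-/

set_option autoImplicit false

namespace Pool.Agent.H43.PC

open Set Filter Topology

/-- composition of the corner maps with all parameters zero -/
noncomputable def cmp (g : ℕ → ℝ → ℝ) (k : ℕ) (x : ℝ) : ℝ := orb (fun _ => 0) g k x

theorem cmp_succ (g : ℕ → ℝ → ℝ) (k : ℕ) (x : ℝ) : cmp g (k + 1) x = g k (cmp g k x) := by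
  simp [cmp, orb]

theorem orb_cmp (e : ℕ → ℝ) (g : ℕ → ℝ → ℝ) (x : ℝ) (m : ℕ) (h : ∀ k < m, e k = 0) : orb e g m x = cmp g m x := by
  induction m with
  | zero => rfl
  | succ m ih =>
    rw [cmp_succ]
    change e m + g m (orb e g m x) = _
    rw [ih fun k hk => h k (by omega), h m (by omega), zero_add]

theorem orb_cmp_last (e : ℕ → ℝ) (g : ℕ → ℝ → ℝ) (x : ℝ) (m : ℕ) (h : ∀ k < m, e k = 0) :
    orb e g (m + 1) x = e m + cmp g (m + 1) x := by
  rw [cmp_succ]
  change e m + g m (orb e g m x) = _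
  rw [orb_cmp e g x m h]

section comp
variable {d η C : ℝ} {l : ℕ → ℝ} {g : ℕ → ℝ → ℝ}

theorem cmp_bounds (hC : 0 < C) (hη : 0 < η) (hlη : ∀ k, η < l k)
    (hbd : ∀ k, ∀ x ∈ Ioo 0 d, x ^ (l k + η) / C ≤ g k x ∧ g k x ≤ C * x ^ (l k - η)) {y : ℝ} (hy : 0 < y) (k : ℕ)
    (h : ∀ j < k, vv C (fun k => l k - η) y j < d) :
    vv (1 / C) (fun k => l k + η) y k ≤ cmp g k y ∧ cmp g k y ≤ vv C (fun k => l k - η) y k := by
  induction k with
  | zero => rw [vv_zero, vv_zero]; exact ⟨le_rfl, le_rfl⟩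
  | succ k ih =>
    obtain ⟨h1, h2⟩ := ih fun j hj => h j (by omega)
    have hpos : 0 < cmp g k y := (vv_pos (by positivity) _ hy k).trans_le h1
    have hlt : cmp g k y < d := h2.trans_lt (h k (by omega))
    obtain ⟨h3, h4⟩ := hbd k _ ⟨hpos, hlt⟩
    rw [cmp_succ, vv_succ (by positivity) _ hy, vv_succ hC _ hy]
    have hl := hlη k
    constructor
    · refine le_trans ?_ h3
      have h5 : vv (1 / C) (fun k => l k + η) y k ^ (l k + η) ≤ cmp g k y ^ (l k + η) :=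
        Real.rpow_le_rpow (vv_pos (by positivity) _ hy k).le h1 (by linarith)
      have h6 : cmp g k y ^ (l k + η) / C = 1 / C * cmp g k y ^ (l k + η) := by ring
      rw [h6]
      exact mul_le_mul_of_nonneg_left h5 (by positivity)
    · refine le_trans h4 ?_
      apply mul_le_mul_of_nonneg_left _ hC.le
      exact Real.rpow_le_rpow hpos.le h2 (by linarith)

theorem cmp_facts (hd : 0 < d) (hC : 0 < C) (hη : 0 < η) (hlη : ∀ k, η < l k) (hg : ∀ k, HasExponent d (l k) η (g k))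
    (hbd : ∀ k, ∀ x ∈ Ioo 0 d, x ^ (l k + η) / C ≤ g k x ∧ g k x ≤ C * x ^ (l k - η)) {D : ℝ} (hD : 0 < D) (m : ℕ) :
    ∃ ρ, 0 < ρ ∧ Small ρ (cmp g m) ∧ (∀ x ∈ Ioo 0 ρ, ∃ c, 0 < c ∧ HasDerivAt (cmp g m) c x) ∧
      (∀ x ∈ Ioo 0 ρ, ∀ j ≤ m, cmp g j x ∈ Ioo 0 (min D d)) ∧
      (∀ x ∈ Ioo 0 ρ, vv (1 / C) (fun k => l k + η) x m ≤ cmp g m x ∧ cmp g m x ≤ vv C (fun k => l k - η) x m) := by
  have ev : ∀ᶠ t in 𝓝[>] (0 : ℝ), ∀ j ∈ Finset.range (m + 1), vv C (fun k => l k - η) t j < min D d := by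
    rw [Filter.eventually_all_finset]
    intro j _
    exact (vv_tendsto C _ j fun i _ => by have := hlη i; linarith).eventually (gt_mem_nhds (lt_min hD hd))
  obtain ⟨ρ, hρ, hsub⟩ := mem_nhdsGT_iff_exists_Ioo_subset.1 ev
  have hvv : ∀ x ∈ Ioo 0 ρ, ∀ j ≤ m, vv C (fun k => l k - η) x j < min D d := fun x hx j hj =>
    hsub hx j (Finset.mem_range.2 (by omega))
  have hb : ∀ x ∈ Ioo 0 ρ, ∀ j ≤ m, vv (1 / C) (fun k => l k + η) x j ≤ cmp g j x ∧
      cmp g j x ≤ vv C (fun k => l k - η) x j := fun x hx j hj =>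
    cmp_bounds hC hη hlη hbd hx.1 j fun i hi => (hvv x hx i (by omega)).trans_le (min_le_right _ _)
  have hin : ∀ x ∈ Ioo 0 ρ, ∀ j ≤ m, cmp g j x ∈ Ioo 0 (min D d) := fun x hx j hj =>
    ⟨(vv_pos (by positivity) _ hx.1 j).trans_le (hb x hx j hj).1, (hb x hx j hj).2.trans_lt (hvv x hx j hj)⟩
  have hind : ∀ x ∈ Ioo 0 ρ, ∀ j < m, orb (fun _ => 0) g j x ∈ Ioo 0 d := fun x hx j hj =>
    ⟨(hin x hx j hj.le).1, (hin x hx j hj.le).2.trans_le (min_le_right _ _)⟩
  have hder : ∀ x ∈ Ioo 0 ρ, ∃ c, 0 < c ∧ HasDerivAt (cmp g m) c x := fun x hx =>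
    ⟨_, Finset.prod_pos fun j hj => (hg j _ (hind x hx j (Finset.mem_range.1 hj))).2.1,
      hasDerivAt_orb (n := m) (fun k _ => hg k) (hind x hx) m le_rfl⟩
  refine ⟨ρ, hρ, ⟨fun x hx => (hin x hx m le_rfl).1, fun x hx => ?_, fun x hx y hy hxy => ?_, ?_⟩, hder, hin,
    fun x hx => hb x hx m le_rfl⟩
  · obtain ⟨c, _, h⟩ := hder x hx
    exact h.continuousAt
  · rcases hxy.lt_or_eq with h | h
    · exact (orb_between (n := m) (fun k _ => hg k) (hind x hx) (hind y hy) m le_rfl x y le_rfl h le_rfl).2.1.le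
    · rw [h]
  · refine tendsto_of_tendsto_of_tendsto_of_le_of_le' tendsto_const_nhds
      (vv_tendsto C (fun k => l k - η) m fun i _ => by have := hlη i; linarith) ?_ ?_
    · filter_upwards [Ioo_mem_nhdsGT hρ] with x hx
      exact (hin x hx m le_rfl).1.le
    · filter_upwards [Ioo_mem_nhdsGT hρ] with x hx
      exact (hb x hx m le_rfl).2

end comp

theorem asym {ρ σ : ℝ} (hρ : 0 < ρ) (hσ : 0 < σ) {A B : ℝ → ℝ} (hA : Small ρ A) {c1 c1' c2 c2' Pm Pp Qm Qp : ℝ}
    (hc1 : 0 < c1) (hc1' : 0 < c1') (hc2 : 0 < c2) (hc2' : 0 < c2') (hQm : 0 < Qm) (hQp : 0 < Qp)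
    (bA : ∀ y ∈ Ioo 0 ρ, c1' * y ^ Pp ≤ A y ∧ A y ≤ c1 * y ^ Pm)
    (bB : ∀ y ∈ Ioo 0 σ, c2' * y ^ Qp ≤ B y ∧ B y ≤ c2 * y ^ Qm)
    (h : (Pp < 1 ∧ 1 < Pm * Qm) ∨ (1 < Pm ∧ Pp * Qp < 1)) :
    ((∀ M > 0, ∀ᶠ y in 𝓝[>] (0 : ℝ), M * y < A y) ∧ ∀ᶠ y in 𝓝[>] (0 : ℝ), B (2 * A y) < y) ∨
      ((∀ M > 0, ∀ᶠ y in 𝓝[>] (0 : ℝ), A y < M * y) ∧ ∀ᶠ y in 𝓝[>] (0 : ℝ), 2 * y < B (A y)) := by
  rcases h with ⟨h1, h2⟩ | ⟨h1, h2⟩
  · left
    constructor
    · intro M hM
      filter_upwards [(tendsto_rpow_zero (show 0 < 1 - Pp by linarith)).eventually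
        (gt_mem_nhds (show 0 < c1' / M by positivity)), Ioo_mem_nhdsGT hρ] with y h3 hy
      have hy0 := hy.1
      have e : y = y ^ (1 - Pp) * y ^ Pp := by
        rw [← Real.rpow_add hy0]; simp
      have h4 : 0 < y ^ Pp := Real.rpow_pos_of_pos hy0 _
      rw [lt_div_iff₀ hM] at h3
      calc M * y = (y ^ (1 - Pp) * M) * y ^ Pp := by rw [mul_right_comm, ← e]; ring
        _ < c1' * y ^ Pp := mul_lt_mul_of_pos_right h3 h4
        _ ≤ A y := (bA y hy).1
    · have h3 := (tendsto_rpow_zero (show 0 < Pm * Qm - 1 by linarith)).const_mul (c2 * (2 * c1) ^ Qm)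
      rw [mul_zero] at h3
      filter_upwards [h3.eventually (gt_mem_nhds one_pos), Ioo_mem_nhdsGT hρ,
        hA.ev (show 0 < σ / 2 by positivity)] with y h4 hy h5
      have hy0 := hy.1
      have hAy := hA.pos y hy
      calc B (2 * A y) ≤ c2 * (2 * A y) ^ Qm := (bB _ ⟨by linarith, by linarith⟩).2
        _ ≤ c2 * (2 * c1 * y ^ Pm) ^ Qm := by
          apply mul_le_mul_of_nonneg_left _ hc2.le
          apply Real.rpow_le_rpow (by positivity) _ hQm.le
          have := (bA y hy).2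
          nlinarith
        _ = c2 * (2 * c1) ^ Qm * y ^ (Pm * Qm - 1) * y := by
          rw [Real.mul_rpow (by positivity) (by positivity), ← Real.rpow_mul hy0.le]
          have : y ^ (Pm * Qm) = y ^ (Pm * Qm - 1) * y := by
            rw [← Real.rpow_add_one hy0.ne']
            congr 1
            ring
          rw [this]
          ring
        _ < y := mul_lt_of_lt_one_left hy0 h4
  · right
    constructor
    · intro M hM
      have h3 := (tendsto_rpow_zero (show 0 < Pm - 1 by linarith)).const_mul c1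
      rw [mul_zero] at h3
      filter_upwards [h3.eventually (gt_mem_nhds hM), Ioo_mem_nhdsGT hρ] with y h4 hy
      have hy0 := hy.1
      calc A y ≤ c1 * y ^ Pm := (bA y hy).2
        _ = c1 * y ^ (Pm - 1) * y := by
          have : y ^ Pm = y ^ (Pm - 1) * y := by
            rw [← Real.rpow_add_one hy0.ne']
            congr 1
            ring
          rw [this]
          ring
        _ < M * y := mul_lt_mul_of_pos_right h4 hy0
    · have hcc : 0 < c2' * c1' ^ Qp / 2 := by positivity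
      filter_upwards [(tendsto_rpow_zero (show 0 < 1 - Pp * Qp by linarith)).eventually (gt_mem_nhds hcc),
        Ioo_mem_nhdsGT hρ, hA.ev hσ] with y h4 hy h5
      have hy0 := hy.1
      have hAy := hA.pos y hy
      have e : y = y ^ (1 - Pp * Qp) * y ^ (Pp * Qp) := by
        rw [← Real.rpow_add hy0]; simp
      have h6 : 0 < y ^ (Pp * Qp) := Real.rpow_pos_of_pos hy0 _
      calc 2 * y = 2 * y ^ (1 - Pp * Qp) * y ^ (Pp * Qp) := by rw [mul_assoc, ← e]
        _ < c2' * c1' ^ Qp * y ^ (Pp * Qp) := mul_lt_mul_of_pos_right (by linarith) h6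
        _ = c2' * (c1' * y ^ Pp) ^ Qp := by
          rw [Real.mul_rpow hc1'.le (by positivity), ← Real.rpow_mul hy0.le]
          ring
        _ ≤ c2' * (A y) ^ Qp := by
          apply mul_le_mul_of_nonneg_left _ hc2'.le
          exact Real.rpow_le_rpow (by positivity) (bA y hy).1 hQp.le
        _ ≤ B (A y) := (bB _ ⟨hAy, h5⟩).1

theorem eta_conv {l1 l2 : ℕ → ℝ} (hl1 : ∀ k, 0 < l1 k) (hl2 : ∀ k, 0 < l2 k) (p q : ℕ)
    (h : (1 < (∏ j ∈ Finset.range p, l1 j) * ∏ j ∈ Finset.range q, l2 j ∧ ∏ j ∈ Finset.range p, l1 j < 1) ∨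
      ((∏ j ∈ Finset.range p, l1 j) * ∏ j ∈ Finset.range q, l2 j < 1 ∧ 1 < ∏ j ∈ Finset.range p, l1 j)) :
    ∀ᶠ η in 𝓝[>] (0 : ℝ),
      (∏ j ∈ Finset.range p, (l1 j + η) < 1 ∧
        1 < (∏ j ∈ Finset.range p, (l1 j - η)) * ∏ j ∈ Finset.range q, (l2 j - η)) ∨
      (1 < ∏ j ∈ Finset.range p, (l1 j - η) ∧
        (∏ j ∈ Finset.range p, (l1 j + η)) * ∏ j ∈ Finset.range q, (l2 j + η) < 1) := by
  have cp : ∀ (u : ℕ → ℝ) (m : ℕ), ContinuousAt (fun η : ℝ => ∏ j ∈ Finset.range m, (u j + η)) 0 := by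
    intro u m; fun_prop
  have cm : ∀ (u : ℕ → ℝ) (m : ℕ), ContinuousAt (fun η : ℝ => ∏ j ∈ Finset.range m, (u j - η)) 0 := by
    intro u m; fun_prop
  rcases h with ⟨h1, h2⟩ | ⟨h1, h2⟩
  · have e1 := lt_eventually (F := fun η => ∏ j ∈ Finset.range p, (l1 j + η)) (G := fun _ => 1) (cp l1 p)
      continuousAt_const (by simpa using h2)
    have e2 := lt_eventually (F := fun _ => 1)
      (G := fun η => (∏ j ∈ Finset.range p, (l1 j - η)) * ∏ j ∈ Finset.range q, (l2 j - η))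
      continuousAt_const ((cm l1 p).mul (cm l2 q)) (by simpa using h1)
    filter_upwards [e1, e2] with η h3 h4
    exact Or.inl ⟨h3, h4⟩
  · have e1 := lt_eventually (F := fun _ => 1) (G := fun η => ∏ j ∈ Finset.range p, (l1 j - η))
      continuousAt_const (cm l1 p) (by simpa using h2)
    have e2 := lt_eventually (F := fun η => (∏ j ∈ Finset.range p, (l1 j + η)) * ∏ j ∈ Finset.range q, (l2 j + η))
      (G := fun _ => 1) ((cp l1 p).mul (cp l2 q)) continuousAt_const (by simpa using h1)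
    filter_upwards [e1, e2] with η h3 h4
    exact Or.inr ⟨h3, h4⟩

theorem orb_strict' {d η : ℝ} {l : ℕ → ℝ} {g : ℕ → ℝ → ℝ} (hg : ∀ k, HasExponent d (l k) η (g k)) (e : ℕ → ℝ)
    {x y : ℝ} (hx : ∀ j, orb e g j x ∈ Ioo 0 d) (hy : ∀ j, orb e g j y ∈ Ioo 0 d) (hxy : x < y) (j : ℕ) :
    orb e g j x < orb e g j y := by
  induction j with
  | zero => exact hxy
  | succ j ih =>
    change e j + g j (orb e g j x) < e j + g j (orb e g j y)
    have := g_lt (n := j + 1) (fun k _ => hg k) (Nat.lt_succ_self j) (hx j) (hy j) ih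
    linarith

theorem isCycle_congr {D : ℝ} {e : ℕ → ℝ} {g g' : ℕ → ℝ → ℝ} {n : ℕ} (h : ∀ k < n, g k = g' k) {x : ℝ}
    (hx : IsCycle D e g n x) : IsCycle D e g' n x := by
  have key : ∀ k ≤ n, orb e g' k x = orb e g k x := by
    intro k
    induction k with
    | zero => intro _; rfl
    | succ k ih =>
      intro hk
      change e k + g' k (orb e g' k x) = e k + g k (orb e g k x)
      rw [ih (by omega), h k (by omega)]
  exact ⟨fun k hk => by rw [key k hk.le]; exact hx.1 k hk, by rw [key n le_rfl]; exact hx.2⟩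

variable {n : ℕ} {l : ℕ → ℝ} {s : ℕ → Prop}

theorem conv (hn : 1 ≤ n) (hl : ∀ k, 0 < l k) (hper : ∀ k, l (k + n) = l k) (hs : ∀ k, s (k + n) ↔ s k)
    {a b : ℕ} (hab : a < b) (hbn : b ≤ a + n) (ha : ¬ s a) (hb : s b)
    (h : (1 < ∏ j ∈ Finset.range n, l j ∧ ∏ j ∈ Finset.Ico (a + 1) (b + 1), l j < 1) ∨
      (∏ j ∈ Finset.range n, l j < 1 ∧ 1 < ∏ j ∈ Finset.Ico (a + 1) (b + 1), l j)) :
    ∃ η > 0, ∀ d > 0, ∀ C > 0, ∀ g : ℕ → ℝ → ℝ, (∀ k < n, HasExponent d (l k) η (g k)) →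
      (∀ k < n, ∀ x ∈ Ioo 0 d, x ^ (l k + η) / C ≤ g k x ∧ g k x ≤ C * x ^ (l k - η)) →
      ∀ δ > 0, ∃ e : ℕ → ℝ, Signs s n e ∧ (∀ k < n, |e k| < δ) ∧
        ∃ x y, x < y ∧ IsCycle (min δ d) e g n x ∧ IsCycle (min δ d) e g n y := by
  have hbn' : b < a + n := by
    rcases hbn.lt_or_eq with h1 | h1
    · exact h1
    · exfalso
      rw [h1, hs] at hb
      exact ha hb
  obtain ⟨p, rfl⟩ : ∃ p, b = a + 1 + p := ⟨b - (a + 1), by omega⟩
  obtain ⟨q, rfl⟩ : ∃ q, n = p + 1 + (q + 1) := ⟨n - p - 2, by omega⟩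
  set n := p + 1 + (q + 1) with hn'
  set l1 : ℕ → ℝ := fun k => l (a + 1 + k) with hl1
  set l2 : ℕ → ℝ := fun k => l1 (p + 1 + k) with hl2
  have hl1p : ∀ k, 0 < l1 k := fun k => hl _
  have hl2p : ∀ k, 0 < l2 k := fun k => hl _
  have hPeq : ∏ j ∈ Finset.Ico (a + 1) (a + 1 + p + 1), l j = ∏ j ∈ Finset.range (p + 1), l1 j := by
    rw [Finset.prod_Ico_eq_prod_range, show a + 1 + p + 1 - (a + 1) = p + 1 from by omega]
  have hPQ : ∏ j ∈ Finset.range n, l j = (∏ j ∈ Finset.range (p + 1), l1 j) * ∏ j ∈ Finset.range (q + 1), l2 j := by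
    rw [← prod_period hl hper (a + 1), Finset.prod_Ico_eq_prod_range, Nat.add_sub_cancel_left, hn',
      Finset.prod_range_add]
  rw [hPeq, hPQ] at h
  have evη : ∀ᶠ η in 𝓝[>] (0 : ℝ), ∀ k ∈ Finset.range n, η < l k := by
    rw [Filter.eventually_all_finset]
    intro k _
    exact ev_lt (hl k)
  obtain ⟨η, ⟨hη1, hη2⟩, hη⟩ := ((eta_conv hl1p hl2p (p + 1) (q + 1) h).and evη).and eventually_mem_nhdsWithin
    |>.exists
  have hη : 0 < η := hη
  have hlη : ∀ k, η < l k := by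
    intro k
    have h1 := seq_period hper (k % n) (k / n)
    rw [Nat.mod_add_div] at h1
    rw [h1]
    exact hη2 _ (Finset.mem_range.2 (Nat.mod_lt _ hn))
  refine ⟨η, hη, fun d hd C hC g0 hg0 hbd0 δ hδ => ?_⟩
  -- the periodic corner maps
  set g : ℕ → ℝ → ℝ := fun k => g0 (k % n) with hgdef
  have hlmod : ∀ k, l k = l (k % n) := by
    intro k
    have h1 := seq_period hper (k % n) (k / n)
    rwa [Nat.mod_add_div] at h1
  have hg : ∀ k, HasExponent d (l k) η (g k) := by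
    intro k
    rw [hlmod k]
    exact hg0 _ (Nat.mod_lt _ hn)
  have hbd : ∀ k, ∀ x ∈ Ioo 0 d, x ^ (l k + η) / C ≤ g k x ∧ g k x ≤ C * x ^ (l k - η) := by
    intro k
    rw [hlmod k]
    exact hbd0 _ (Nat.mod_lt _ hn)
  have hper_g : ∀ k, g (k + n) = g k := fun k => by simp only [hgdef, Nat.add_mod_right]
  set r := a + 1 with hr
  set g1 : ℕ → ℝ → ℝ := fun k => g (r + k) with hg1
  set g2 : ℕ → ℝ → ℝ := fun k => g1 (p + 1 + k) with hg2
  obtain ⟨ρ, hρ, hA, -, hAin, hAb⟩ := cmp_facts (l := l1) (g := g1) hd hC hη (fun k => hlη _) (fun k => hg _)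
    (fun k => hbd _) hδ (p + 1)
  obtain ⟨σ, hσ, hB, hBd, hBin, hBb⟩ := cmp_facts (l := l2) (g := g2) hd hC hη (fun k => hlη _) (fun k => hg _)
    (fun k => hbd _) hδ (q + 1)
  have hdisj := asym hρ hσ hA (B := cmp g2 (q + 1)) (cf_pos hC (fun k => l1 k - η) (p + 1))
    (cf_pos (show 0 < 1 / C by positivity) (fun k => l1 k + η) (p + 1)) (cf_pos hC (fun k => l2 k - η) (q + 1))
    (cf_pos (show 0 < 1 / C by positivity) (fun k => l2 k + η) (q + 1))
    (Finset.prod_pos fun i _ => by have := hlη (r + (p + 1 + i)); simp only [hl2, hl1]; linarith)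
    (Finset.prod_pos fun i _ => by have := hl2p i; linarith) hAb hBb hη1
  obtain ⟨α, hα, hα2, β, hβ, hβ2, x, y, hx, hxy, hy, hyρ, hxσ, hyσ, hx0, hy0⟩ :=
    two_abs hρ hσ hA hB hBd hdisj hδ
  have hy' : 0 < y := hx.trans hxy
  set e : ℕ → ℝ := fun k => if k % n = (r + p) % n then α else if k % n = a % n then -β else 0 with he
  have hper_e : ∀ k, e (k + n) = e k := fun k => by simp only [he, Nat.add_mod_right]
  have hmod : ∀ i < n, ∀ j < n, (r + i) % n = (r + j) % n → i = j := by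
    intro i hi j hj hij
    have h1 : i ≡ j [MOD n] := Nat.ModEq.add_left_cancel' r hij
    rwa [Nat.ModEq, Nat.mod_eq_of_lt hi, Nat.mod_eq_of_lt hj] at h1
  have hamod : a % n = (r + (n - 1)) % n := by
    rw [hr, show a + 1 + (n - 1) = a + n from by omega, Nat.add_mod_right]
  set e1 : ℕ → ℝ := fun k => e (r + k) with he1
  have e1p : e1 p = α := by simp only [he1, he, if_true]
  have e1last : e1 (n - 1) = -β := by
    simp only [he1, he]
    rw [if_neg, if_pos hamod.symm]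
    intro hcon
    have := hmod (n - 1) (by omega) p (by omega) hcon
    omega
  have e1zero : ∀ k < n, k ≠ p → k ≠ n - 1 → e1 k = 0 := by
    intro k hk h1 h2
    simp only [he1, he]
    rw [if_neg, if_neg]
    · intro hcon
      rw [hamod] at hcon
      exact h2 (hmod k hk (n - 1) (by omega) hcon)
    · intro hcon
      exact h1 (hmod k hk p (by omega) hcon)
  have hcyc : ∀ z, 0 < z → z < ρ → α + cmp g1 (p + 1) z < σ → cmp g2 (q + 1) (α + cmp g1 (p + 1) z) - β = z →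
      IsCycle (min δ d) e1 g1 n z := by
    intro z hz hzρ hzσ hzeq
    have hAz : 0 < cmp g1 (p + 1) z := hA.pos z ⟨hz, hzρ⟩
    have horb1 : ∀ k ≤ p, orb e1 g1 k z = cmp g1 k z := fun k hk =>
      orb_cmp e1 g1 z k fun j hj => e1zero j (by omega) (by omega) (by omega)
    have horb2 : orb e1 g1 (p + 1) z = α + cmp g1 (p + 1) z := by
      rw [orb_cmp_last e1 g1 z p fun j hj => e1zero j (by omega) (by omega) (by omega), e1p]
    have hw : 0 < α + cmp g1 (p + 1) z := by linarith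
    have horb3 : ∀ k ≤ q, orb e1 g1 (p + 1 + k) z = cmp g2 k (α + cmp g1 (p + 1) z) := by
      intro k hk
      rw [orb_add, horb2]
      exact orb_cmp (fun k => e1 (p + 1 + k)) g2 _ k fun j hj => e1zero _ (by omega) (by omega) (by omega)
    have horb4 : orb e1 g1 n z = z := by
      rw [hn', orb_add, horb2]
      have h1 := orb_cmp_last (fun k => e1 (p + 1 + k)) g2 (α + cmp g1 (p + 1) z) q
        fun j hj => e1zero _ (by omega) (by omega) (by omega)
      have h2 : e1 (p + 1 + q) = -β := by rw [← e1last]; congr 1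
      rw [h2] at h1
      have h3 : orb (fun k => e1 (p + 1 + k)) (fun k => g1 (p + 1 + k)) (q + 1) (α + cmp g1 (p + 1) z) =
        -β + cmp g2 (q + 1) (α + cmp g1 (p + 1) z) := h1
      rw [h3]
      linarith
    refine ⟨fun k hk => ?_, horb4⟩
    rcases Nat.lt_or_ge k (p + 1) with h1 | h1
    · rw [horb1 k (by omega)]
      exact hAin z ⟨hz, hzρ⟩ k (by omega)
    · obtain ⟨j, rfl⟩ : ∃ j, k = p + 1 + j := ⟨k - (p + 1), by omega⟩
      rw [horb3 j (by omega)]
      exact hBin _ ⟨hw, hzσ⟩ j (by omega)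
  have hcx := hcyc x hx (hxy.trans hyρ) hxσ hx0
  have hcy := hcyc y hy' hyρ hyσ hy0
  have hrx := rotate (d := min δ d) (e := e) (g := g) hn hper_e hper_g r (y := x) hcx
  have hry := rotate (d := min δ d) (e := e) (g := g) hn hper_e hper_g r (y := y) hcy
  have hgg : ∀ k < n, g k = g0 k := fun k hk => by simp only [hgdef, Nat.mod_eq_of_lt hk]
  refine ⟨e, ?_, ?_, _, _, ?_, isCycle_congr hgg hrx, isCycle_congr hgg hry⟩
  · intro k hk
    have hsb : s (r + p) := hb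
    refine ⟨fun h1 => ?_, fun h1 => ?_⟩
    · simp only [he]
      split_ifs with h2 h3
      · exact hα.le
      · exfalso
        rw [s_mod hs, h3, ← s_mod hs] at h1
        exact ha h1
      · exact le_rfl
    · simp only [he]
      split_ifs with h2 h3
      · exfalso
        rw [s_mod hs, h2, ← s_mod hs] at h1
        exact h1 hsb
      · linarith
      · exact le_rfl
  · intro k hk
    simp only [he]
    split_ifs with h2 h3
    · rw [abs_of_pos hα]; exact hα2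
    · rw [abs_neg, abs_of_pos hβ]; exact hβ2
    · simpa using hδ
  · have hpe1 : ∀ k, e1 (k + n) = e1 k := fun k => by simp only [he1]; rw [← add_assoc, hper_e]
    have hpg1 : ∀ k, g1 (k + n) = g1 k := fun k => by simp only [hg1]; rw [← add_assoc, hper_g]
    have hall : ∀ z, IsCycle (min δ d) e1 g1 n z → ∀ j, orb e1 g1 j z ∈ Ioo 0 d := by
      intro z hz j
      have := orb_period_mul hpe1 hpg1 hz.2 (j % n) (j / n)
      rw [Nat.mod_add_div] at this
      rw [this]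
      have h1 := hz.1 _ (Nat.mod_lt j hn)
      exact ⟨h1.1, h1.2.trans_le (min_le_right _ _)⟩
    exact orb_strict' (l := l1) (fun k => hg _) e1 (hall x hcx) (hall y hcy) hxy (r * (n - 1))

end Pool.Agent.H43.PC
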