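import Mathlib
import Pool.Agent.H43.PC.Loc

/-!
Fixed points near the polycycle are hyperbolic.
-/

set_option autoImplicit false

namespace Pool.Agent.H43.PC

open Set Filter Topology

section orbit

variable {d η : ℝ} {l e : ℕ → ℝ} {g : ℕ → ℝ → ℝ} {n : ℕ}

/-- A fixed point `x` and a point `w > x` which passes all corners and is not mapped above `w` (expanding case), not
below `w` (contracting case): then the multiplier of `x` is `< 1`, `> 1` respectively. -/
theorem core_mult (hη : 0 ≤ η) (hn : 1 ≤ n) (θ : ℕ → ℝ) (hθ : ∀ k, 0 < θ k) (hper : θ n = θ 0)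
    (hg : ∀ k < n, HasExponent d (l k) η (g k)) {x w : ℝ} (hx : IsCycle d e g n x)
    (hw : ∀ k < n, orb e g k w ∈ Ioo 0 d) (hxw : x < w)
    (h : (∀ k < n, Expanding η (l k) (e k) (θ k) (θ (k + 1))) ∧ orb e g n w ≤ w ∧
        1 ≤ ∏ j ∈ Finset.range n, deriv (g j) (orb e g j x) ∨
      (∀ k < n, Contracting η (l k) (e k) (θ k) (θ (k + 1))) ∧ w ≤ orb e g n w ∧
        ∏ j ∈ Finset.range n, deriv (g j) (orb e g j x) ≤ 1) : False := by
  have hbt := orb_between (e := e) hg hx.1 hw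
  have hx0 : 0 < x := (hx.1 0 (by omega)).1
  -- every point of `[x, w]` passes all corners
  have hpass : ∀ t ∈ Icc x w, (∀ k < n, orb e g k t ∈ Ioo 0 d) ∧ ∀ k ≤ n, 0 < orb e g k t := by
    intro t ht
    have key : ∀ k ≤ n, orb e g k x ≤ orb e g k t ∧ orb e g k t ≤ orb e g k w := by
      intro k hk
      rcases ht.2.lt_or_eq with h1 | h1
      · have := hbt k hk t w ht.1 h1 le_rfl
        exact ⟨this.1, this.2.1.le⟩
      · subst h1
        have := hbt k hk x t le_rfl hxw le_rfl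
        exact ⟨this.2.1.le, le_rfl⟩
    have hposx : ∀ k ≤ n, 0 < orb e g k x := by
      intro k hk
      rcases hk.lt_or_eq with h1 | h1
      · exact (hx.1 k h1).1
      · rw [h1, hx.2]; exact hx0
    exact ⟨fun k hk => ⟨(hposx k hk.le).trans_le (key k hk.le).1, (key k hk.le).2.trans_lt (hw k hk).2⟩,
      fun k hk => (hposx k hk).trans_le (key k hk).1⟩
  set H : ℝ → ℝ := fun t => orb e g n t ^ θ 0 - t ^ θ 0 with hH
  set P : ℝ → ℝ := fun t => ∏ j ∈ Finset.range n, deriv (g j) (orb e g j t) with hP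
  set S : ℝ → ℝ := fun c => ∑ k ∈ Finset.range n, E (e k) (θ k) (θ (k + 1)) (g k) (orb e g k c) with hS
  have hder : ∀ t ∈ Icc x w, HasDerivAt H (P t * θ 0 * orb e g n t ^ (θ 0 - 1) - 1 * θ 0 * t ^ (θ 0 - 1)) t := by
    intro t ht
    have h1 := hasDerivAt_orb hg (hpass t ht).1 n le_rfl
    have h2 := h1.rpow_const (p := θ 0) (Or.inl ((hpass t ht).2 n le_rfl).ne')
    have h3 := (hasDerivAt_id t).rpow_const (p := θ 0) (Or.inl ((hx0.trans_le ht.1).ne' : id t ≠ 0))
    exact h2.sub h3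
  -- the sign of the slope
  have hslope : ∀ u v : ℝ, x ≤ u → u < v → v ≤ w → ∃ c ∈ Ioo u v,
      (H v ≤ H u → S c ≤ 0) ∧ (H u ≤ H v → 0 ≤ S c) := by
    intro u v hu huv hv
    have hcont : ContinuousOn H (Icc u v) := fun t ht =>
      (hder t ⟨hu.trans ht.1, ht.2.trans hv⟩).continuousAt.continuousWithinAt
    obtain ⟨c, hc, hc0⟩ := exists_hasDerivAt_eq_slope H _ huv hcont
      (fun t ht => hder t ⟨hu.trans ht.1.le, ht.2.le.trans hv⟩)
    have hcI : c ∈ Icc x w := ⟨hu.trans hc.1.le, hc.2.le.trans hv⟩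
    have hcpos : 0 < c := hx0.trans_le hcI.1
    have hnpos := (hpass c hcI).2 n le_rfl
    have hPpos : ∀ j ∈ Finset.range n, 0 < deriv (g j) (orb e g j c) := fun j hj =>
      (hg j (Finset.mem_range.1 hj) _ ((hpass c hcI).1 j (Finset.mem_range.1 hj))).2.1
    have hPp : 0 < P c := Finset.prod_pos hPpos
    have e3 : Real.log (P c) = ∑ k ∈ Finset.range n, Real.log (deriv (g k) (orb e g k c)) := by
      rw [hP]
      exact Real.log_prod (fun j hj => (hPpos j hj).ne')
    have hSc : S c = Real.log (P c * orb e g n c ^ (θ 0 - 1)) - Real.log (c ^ (θ 0 - 1)) := by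
      rw [Real.log_mul hPp.ne' (Real.rpow_pos_of_pos hnpos _).ne', Real.log_rpow hnpos, Real.log_rpow hcpos, e3]
      change ∑ k ∈ Finset.range n, E (e k) (θ k) (θ (k + 1)) (g k) (orb e g k c) = _
      rw [sum_E, hper]
      ring
    have hθ0 := hθ 0
    have hq : (H v - H u) / (v - u) = θ 0 * (P c * orb e g n c ^ (θ 0 - 1) - c ^ (θ 0 - 1)) := by
      rw [← hc0]; ring
    have hvu : 0 < v - u := by linarith
    have hA : 0 < P c * orb e g n c ^ (θ 0 - 1) := mul_pos hPp (Real.rpow_pos_of_pos hnpos _)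
    have hB : 0 < c ^ (θ 0 - 1) := Real.rpow_pos_of_pos hcpos _
    refine ⟨c, hc, fun hle => ?_, fun hle => ?_⟩
    · have h1 : (H v - H u) / (v - u) ≤ 0 := div_nonpos_of_nonpos_of_nonneg (by linarith) hvu.le
      rw [hq] at h1
      have h2 : P c * orb e g n c ^ (θ 0 - 1) ≤ c ^ (θ 0 - 1) := by
        by_contra hcon
        push Not at hcon
        have := mul_pos hθ0 (sub_pos.2 hcon)
        linarith
      rw [hSc, sub_nonpos]
      exact Real.log_le_log hA h2
    · have h1 : 0 ≤ (H v - H u) / (v - u) := div_nonneg (by linarith) hvu.le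
      rw [hq] at h1
      have h2 : c ^ (θ 0 - 1) ≤ P c * orb e g n c ^ (θ 0 - 1) := by
        by_contra hcon
        push Not at hcon
        have := mul_pos hθ0 (sub_pos.2 hcon)
        linarith
      rw [hSc, sub_nonneg]
      exact Real.log_le_log hB h2
  have hHx : H x = 0 := by rw [hH]; simp only; rw [hx.2, sub_self]
  obtain ⟨v, hv, hv1, hv2⟩ := hslope x w le_rfl hxw le_rfl
  have hxI : x ∈ Icc x w := ⟨le_rfl, hxw.le⟩
  have hvI : v ∈ Icc x w := ⟨hv.1.le, hv.2.le⟩
  have hPpos : ∀ j ∈ Finset.range n, 0 < deriv (g j) (orb e g j x) := fun j hj =>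
    (hg j (Finset.mem_range.1 hj) _ (hx.1 j (Finset.mem_range.1 hj))).2.1
  have hSx : S x = Real.log (∏ j ∈ Finset.range n, deriv (g j) (orb e g j x)) := by
    rw [Real.log_prod (fun j hj => (hPpos j hj).ne')]
    change ∑ k ∈ Finset.range n, E (e k) (θ k) (θ (k + 1)) (g k) (orb e g k x) = _
    rw [sum_E, hper, hx.2]
    ring
  have hmem : ∀ k < n, ∀ s ∈ Icc (orb e g k x) (orb e g k v), s ∈ Ioo 0 d ∧ 0 < e k + g k s := by
    intro k hk s hs
    have a1 := (hpass x hxI).1 k hk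
    have a2 := (hpass v hvI).1 k hk
    have a3 : s ∈ Ioo 0 d := ⟨a1.1.trans_le hs.1, hs.2.trans_lt a2.2⟩
    refine ⟨a3, ?_⟩
    have a4 := (hpass x hxI).2 (k + 1) hk
    rcases hs.1.lt_or_eq with h1 | h1
    · have := g_lt hg hk a1 a3 h1
      have a5 : orb e g (k + 1) x = e k + g k (orb e g k x) := rfl
      linarith
    · rw [← h1]; exact a4
  have hlt : ∀ k < n, orb e g k x < orb e g k v := fun k hk => (hbt k hk.le x v le_rfl hv.1 hv.2.le).2.1
  rcases h with ⟨h, hle, hm⟩ | ⟨h, hle, hm⟩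
  · have hHw : H w ≤ H x := by
      rw [hHx, hH]
      simp only
      rw [sub_nonpos]
      have h0 : 0 ≤ orb e g n w := ((hpass w ⟨hxw.le, le_rfl⟩).2 n le_rfl).le
      exact Real.rpow_le_rpow h0 hle (hθ 0).le
    have : S x < S v := by
      apply Finset.sum_lt_sum_of_nonempty (Finset.nonempty_range_iff.2 (by omega))
      intro k hk
      rw [Finset.mem_range] at hk
      have hs : StrictMonoOn (E (e k) (θ k) (θ (k + 1)) (g k)) (Icc (orb e g k x) (orb e g k v)) := by
        apply strictMonoOn_of_deriv_pos (convex_Icc _ _)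
        · intro s hs
          exact (hasDerivAt_E (hg k hk) (hmem k hk s hs).1 (hmem k hk s hs).2).continuousAt.continuousWithinAt
        · intro s hs
          rw [interior_Icc] at hs
          have hs' := hmem k hk s (Ioo_subset_Icc_self hs)
          rw [(hasDerivAt_E (hg k hk) hs'.1 hs'.2).deriv]
          exact deriv_pos_of_expanding hη (hθ _) (hg k hk) (h k hk) hs'.1 hs'.2
      exact hs (left_mem_Icc.2 (hlt k hk).le) (right_mem_Icc.2 (hlt k hk).le) (hlt k hk)
    have a1 := hv1 hHw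
    have a2 : 0 ≤ S x := by rw [hSx]; exact Real.log_nonneg hm
    linarith
  · have hHw : H x ≤ H w := by
      rw [hHx, hH]
      simp only
      rw [sub_nonneg]
      exact Real.rpow_le_rpow (hx0.trans hxw).le hle (hθ 0).le
    have : S v < S x := by
      apply Finset.sum_lt_sum_of_nonempty (Finset.nonempty_range_iff.2 (by omega))
      intro k hk
      rw [Finset.mem_range] at hk
      have hs : StrictAntiOn (E (e k) (θ k) (θ (k + 1)) (g k)) (Icc (orb e g k x) (orb e g k v)) := by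
        apply strictAntiOn_of_deriv_neg (convex_Icc _ _)
        · intro s hs
          exact (hasDerivAt_E (hg k hk) (hmem k hk s hs).1 (hmem k hk s hs).2).continuousAt.continuousWithinAt
        · intro s hs
          rw [interior_Icc] at hs
          have hs' := hmem k hk s (Ioo_subset_Icc_self hs)
          rw [(hasDerivAt_E (hg k hk) hs'.1 hs'.2).deriv]
          exact deriv_neg_of_contracting hη (hθ _) (hg k hk) (h k hk) hs'.1 hs'.2
      exact hs (left_mem_Icc.2 (hlt k hk).le) (right_mem_Icc.2 (hlt k hk).le) (hlt k hk)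
    have a1 := hv2 hHw
    have a2 : S x ≤ 0 := by rw [hSx]; exact Real.log_nonpos (Finset.prod_nonneg fun j hj => (hPpos j hj).le) hm
    linarith

end orbit

section

variable {d η C : ℝ} {l : ℕ → ℝ} {n : ℕ}

/-- **A fixed point near the polycycle is hyperbolic.** -/
theorem local_mult (hη : 0 < η) (hn : 1 ≤ n) (hl : ∀ k < n, η < l k) (θ : ℕ → ℝ) (hθ : ∀ k, 0 < θ k)
    (hper : θ n = θ 0) (Q : (ℕ → ℝ) → Prop)
    (h : (∀ e, Q e → ∀ k < n, Expanding η (l k) (e k) (θ k) (θ (k + 1))) ∧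
          1 < ∏ k ∈ Finset.range n, (l k - η) ∨
      (∀ e, Q e → ∀ k < n, Contracting η (l k) (e k) (θ k) (θ (k + 1))) ∧
          ∏ k ∈ Finset.range n, (l k + η) < 1) (hd : 0 < d) (hC : 0 < C) :
    ∃ δ > 0, ∃ ε > 0, ∀ (e : ℕ → ℝ) (g : ℕ → ℝ → ℝ), Q e → (∀ k < n, |e k| < ε) →
      (∀ k < n, HasExponent d (l k) η (g k)) →
      (∀ k < n, ∀ x ∈ Ioo 0 d, x ^ (l k + η) / C ≤ g k x ∧ g k x ≤ C * x ^ (l k - η)) →
      ∀ y, IsCycle d e g n y → y < δ →
        (1 < ∏ k ∈ Finset.range n, (l k - η) ∧ ∏ j ∈ Finset.range n, deriv (g j) (orb e g j y) < 1) ∨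
        (∏ k ∈ Finset.range n, (l k + η) < 1 ∧ 1 < ∏ j ∈ Finset.range n, deriv (g j) (orb e g j y)) := by
  set m : ℕ → ℝ := fun k => l k - η with hm
  set p : ℕ → ℝ := fun k => l k + η with hp
  have hmpos : ∀ k < n, 0 < m k := fun k hk => by
    have := hl k hk
    rw [hm]; simp only; linarith
  have hppos : ∀ k < n, 0 < p k := fun k hk => by
    have := hl k hk
    rw [hp]; simp only; linarith
  have h2C : 0 < 2 * C := by linarith
  have h2C' : 0 < (2 * C)⁻¹ := inv_pos.2 h2C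
  have ev1 : ∀ᶠ δ in 𝓝[>] (0 : ℝ), ∀ k ∈ Finset.range n, vv (2 * C) m δ k < d := by
    rw [Filter.eventually_all_finset]
    intro k hk
    rw [Finset.mem_range] at hk
    exact (vv_tendsto (2 * C) m k (fun j hj => hmpos j (by omega))).eventually (gt_mem_nhds hd)
  have ev2 : ∀ᶠ δ in 𝓝[>] (0 : ℝ), (1 < ∏ k ∈ Finset.range n, m k → vv (2 * C) m δ n < δ) ∧
      (∏ k ∈ Finset.range n, p k < 1 → δ < vv (2 * C)⁻¹ p δ n) := by
    refine Filter.Eventually.and ?_ ?_
    · by_cases h1 : 1 < ∏ k ∈ Finset.range n, m k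
      · filter_upwards [vv_lt (c := 2 * C) m n h1] with δ hδ _ using hδ
      · filter_upwards with δ h2 using absurd h2 h1
    · by_cases h1 : ∏ k ∈ Finset.range n, p k < 1
      · filter_upwards [lt_vv h2C' p n h1] with δ hδ _ using hδ
      · filter_upwards with δ h2 using absurd h2 h1
  have ev3 : ∀ᶠ δ in 𝓝[>] (0 : ℝ), (0 : ℝ) < δ := eventually_mem_nhdsWithin
  obtain ⟨δ, hδ1, ⟨hδ2, hδ3⟩, hδ⟩ := (ev1.and (ev2.and ev3)).exists
  -- the bound on the breaking parameters
  obtain ⟨ε, hε, hε1⟩ : ∃ ε > 0, ∀ k < n, ε ≤ C * vv (2 * C) m δ k ^ m k ∧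
      ε ≤ (2 * C)⁻¹ * vv (2 * C)⁻¹ p δ k ^ p k := by
    have ev : ∀ᶠ ε in 𝓝[>] (0 : ℝ), ∀ k ∈ Finset.range n, ε ≤ C * vv (2 * C) m δ k ^ m k ∧
        ε ≤ (2 * C)⁻¹ * vv (2 * C)⁻¹ p δ k ^ p k := by
      rw [Filter.eventually_all_finset]
      intro k _
      have a1 : 0 < C * vv (2 * C) m δ k ^ m k := mul_pos hC (Real.rpow_pos_of_pos (vv_pos h2C m hδ k) _)
      have a2 : 0 < (2 * C)⁻¹ * vv (2 * C)⁻¹ p δ k ^ p k :=
        mul_pos h2C' (Real.rpow_pos_of_pos (vv_pos h2C' p hδ k) _)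
      have b1 : ∀ᶠ ε in 𝓝[>] (0 : ℝ), ε ≤ C * vv (2 * C) m δ k ^ m k :=
        (eventually_le_nhds a1).filter_mono nhdsWithin_le_nhds
      have b2 : ∀ᶠ ε in 𝓝[>] (0 : ℝ), ε ≤ (2 * C)⁻¹ * vv (2 * C)⁻¹ p δ k ^ p k :=
        (eventually_le_nhds a2).filter_mono nhdsWithin_le_nhds
      exact b1.and b2
    obtain ⟨ε, h1, h2⟩ := (ev.and (eventually_mem_nhdsWithin : ∀ᶠ ε in 𝓝[>] (0 : ℝ), ε ∈ Ioi (0 : ℝ))).exists
    exact ⟨ε, h2, fun k hk => h1 k (Finset.mem_range.2 hk)⟩
  refine ⟨δ, hδ, ε, hε, fun e g hQ he hg hbd y hy hyδ => ?_⟩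
  have hypos : ∀ k ≤ n, 0 < orb e g k y := by
    intro k hk
    rcases hk.lt_or_eq with h1 | h1
    · exact (hy.1 k h1).1
    · rw [h1, hy.2]; exact (hy.1 0 (by omega)).1
  -- the orbit of `δ`
  have hup : ∀ k ≤ n, orb e g k y < orb e g k δ ∧ orb e g k δ ≤ vv (2 * C) m δ k := by
    intro k
    induction k with
    | zero =>
      intro _
      exact ⟨hyδ, by rw [vv_zero]; exact le_rfl⟩
    | succ k ih =>
      intro hk
      obtain ⟨a1, a2⟩ := ih (by omega)
      have hkn : k < n := by omega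
      have a3 : orb e g k δ ∈ Ioo 0 d :=
        ⟨(hypos k hkn.le).trans a1, a2.trans_lt (hδ1 k (Finset.mem_range.2 hkn))⟩
      refine ⟨?_, ?_⟩
      · have := g_lt hg hkn (hy.1 k hkn) a3 a1
        change e k + g k (orb e g k y) < e k + g k (orb e g k δ)
        linarith
      · have b1 := (abs_lt.1 (he k hkn)).2
        have b2 := (hbd k hkn _ a3).2
        have b3 : orb e g k δ ^ m k ≤ vv (2 * C) m δ k ^ m k := Real.rpow_le_rpow a3.1.le a2 (hmpos k hkn).le
        have b4 := (hε1 k hkn).1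
        have b5 : C * orb e g k δ ^ m k ≤ C * vv (2 * C) m δ k ^ m k := mul_le_mul_of_nonneg_left b3 hC.le
        rw [vv_succ h2C m hδ]
        change e k + g k (orb e g k δ) ≤ _
        have b6 : g k (orb e g k δ) ≤ C * orb e g k δ ^ m k := b2
        linarith
  have hpassδ : ∀ k < n, orb e g k δ ∈ Ioo 0 d := fun k hk =>
    ⟨(hypos k hk.le).trans (hup k hk.le).1, (hup k hk.le).2.trans_lt (hδ1 k (Finset.mem_range.2 hk))⟩
  rcases h with ⟨h1, h2⟩ | ⟨h1, h2⟩
  · refine Or.inl ⟨h2, ?_⟩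
    by_contra hcon
    push Not at hcon
    exact core_mult hη.le hn θ hθ hper hg hy hpassδ hyδ
      (Or.inl ⟨h1 e hQ, (hup n le_rfl).2.trans (hδ2 h2).le, hcon⟩)
  · have hlow : ∀ k ≤ n, vv (2 * C)⁻¹ p δ k ≤ orb e g k δ := by
      intro k
      induction k with
      | zero =>
        intro _
        rw [vv_zero]
        exact le_rfl
      | succ k ih =>
        intro hk
        have a1 := ih (by omega)
        have hkn : k < n := by omega
        have b1 := (abs_lt.1 (he k hkn)).1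
        have b2 := (hbd k hkn _ (hpassδ k hkn)).1
        have b3 : vv (2 * C)⁻¹ p δ k ^ p k ≤ orb e g k δ ^ p k :=
          Real.rpow_le_rpow (vv_pos h2C' p hδ k).le a1 (hppos k hkn).le
        have b4 := (hε1 k hkn).2
        rw [vv_succ h2C' p hδ]
        change _ ≤ e k + g k (orb e g k δ)
        have b6 : orb e g k δ ^ p k / C ≤ g k (orb e g k δ) := b2
        have b7 : vv (2 * C)⁻¹ p δ k ^ p k / C ≤ orb e g k δ ^ p k / C := by
          apply div_le_div_of_nonneg_right b3 hC.le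
        have b8 : vv (2 * C)⁻¹ p δ k ^ p k / C = 2 * ((2 * C)⁻¹ * vv (2 * C)⁻¹ p δ k ^ p k) := by
          field_simp
        linarith
    refine Or.inr ⟨h2, ?_⟩
    by_contra hcon
    push Not at hcon
    exact core_mult hη.le hn θ hθ hper hg hy hpassδ hyδ
      (Or.inr ⟨h1 e hQ, (hδ3 h2).le.trans (hlow n le_rfl), hcon⟩)

end

end Pool.Agent.H43.PC
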